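import Pool.Agent.V5helper40.DRB.Wt

open Module Finset

namespace Pool.Agent.V5helper40.DRB

open Pool.Agent.W544.K3

set_option linter.unusedSimpArgs false

/-- diagonalisation of real `2 × 2` matrices with positive discriminant -/
theorem diag2 (p q r s : ℝ) (h : 0 < (p - s) ^ 2 + 4 * q * r) :
    ∃ m11 m12 m21 m22 l m : ℝ, m11 * m22 - m12 * m21 ≠ 0 ∧ l ≠ m ∧
      p * m11 + r * m21 = l * m11 ∧ q * m11 + s * m21 = l * m21 ∧
      p * m12 + r * m22 = m * m12 ∧ q * m12 + s * m22 = m * m22 := by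
  by_cases hq : q = 0
  · subst hq
    have hps : p ≠ s := by
      rintro rfl
      simp at h
    refine ⟨1, r, 0, s - p, p, s, ?_, hps, by ring, by ring, by ring, by ring⟩
    have : s - p ≠ 0 := sub_ne_zero.2 (Ne.symm hps)
    simpa using this
  · set δ := Real.sqrt ((p - s) ^ 2 + 4 * q * r) with hδ
    have hδ0 : 0 < δ := Real.sqrt_pos.2 h
    have hδ2 : δ ^ 2 = (p - s) ^ 2 + 4 * q * r := Real.sq_sqrt h.le
    refine ⟨((p + s + δ) / 2 - s), ((p + s - δ) / 2 - s), q, q, (p + s + δ) / 2, (p + s - δ) / 2,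
      ?_, ?_, ?_, by ring, ?_, by ring⟩
    · have : ((p + s + δ) / 2 - s) * q - ((p + s - δ) / 2 - s) * q = δ * q := by ring
      rw [this]
      exact mul_ne_zero hδ0.ne' hq
    · intro h1
      linarith
    · nlinarith [hδ2]
    · nlinarith [hδ2]

section
variable {U : Type} [AddCommGroup U] [Module ℝ U]
variable {B : U →ₗ[ℝ] U →ₗ[ℝ] ℝ} {e₁ f₁ e₂ f₂ : U}

/-- change of basis -/
theorem hyp2_basis (H : Hyp2 B e₁ f₁ e₂ f₂) {m11 m12 m21 m22 d : ℝ}
    (hd : d = m11 * m22 - m12 * m21) (hd0 : d ≠ 0) :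
    Hyp2 B (m11 • e₁ + m21 • e₂) (d⁻¹ • (m22 • f₁ - m12 • f₂)) (m12 • e₁ + m22 • e₂)
      (d⁻¹ • (m11 • f₂ - m21 • f₁)) ∧
    wedge B (d⁻¹ • (m22 • f₁ - m12 • f₂)) (m11 • e₁ + m21 • e₂) +
      wedge B (d⁻¹ • (m11 • f₂ - m21 • f₁)) (m12 • e₁ + m22 • e₂) =
      wedge B f₁ e₁ + wedge B f₂ e₂ := by
  obtain ⟨hs, p1, p2, p3, p4, p5, p6, p7, p8, p9, p10, p3', p6', p7', p8', p9', p10'⟩ :=
    pair_of H
  have hneg := H.2.2.2.2.2.2.2
  refine ⟨⟨hs, ⟨?_, ?_, ?_⟩, ⟨?_, ?_, ?_⟩, ?_, ?_, ?_, ?_, ?_⟩, ?_⟩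
  · simp [p1, p4, p7, p7']
  · simp [p2, p5, p10, p10']
  · simp [p3, p6, p8, p9']
    field_simp
    linarith
  · simp [p1, p4, p7, p7']
  · simp [p2, p5, p10, p10']
  · simp [p3, p6, p8, p9']
    field_simp
    linarith
  · simp [p1, p4, p7, p7']
  · simp [p3, p6, p8, p9']
    right
    ring
  · simp [p3', p6', p8', p9]
    right
    ring
  · simp [p2, p5, p10, p10']
  · intro v hv k1 k2 k3 k4
    simp only [map_add, map_sub, map_smul, LinearMap.add_apply, LinearMap.sub_apply,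
      LinearMap.smul_apply, smul_eq_mul] at k1 k2 k3 k4
    have k2' := (mul_eq_zero.1 k2).resolve_left (inv_ne_zero hd0)
    have k4' := (mul_eq_zero.1 k4).resolve_left (inv_ne_zero hd0)
    apply hneg v hv
    · have : d * B e₁ v = 0 := by rw [hd]; linear_combination m22 * k1 - m21 * k3
      exact (mul_eq_zero.1 this).resolve_left hd0
    · have : d * B f₁ v = 0 := by rw [hd]; linear_combination m11 * k2' + m12 * k4'
      exact (mul_eq_zero.1 this).resolve_left hd0
    · have : d * B e₂ v = 0 := by rw [hd]; linear_combination m11 * k3 - m12 * k1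
      exact (mul_eq_zero.1 this).resolve_left hd0
    · have : d * B f₂ v = 0 := by rw [hd]; linear_combination m21 * k2' + m22 * k4'
      exact (mul_eq_zero.1 this).resolve_left hd0
  · ext v
    simp only [LinearMap.add_apply, wedge_apply, map_add, map_sub, map_smul, LinearMap.sub_apply,
      LinearMap.smul_apply, smul_eq_mul]
    have h1 : d⁻¹ * (m11 * m22 - m12 * m21) = 1 := by rw [← hd]; exact inv_mul_cancel₀ hd0
    have h2 : ∀ w : U, w = (d⁻¹ * (m11 * m22 - m12 * m21)) • w := fun w => by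
      rw [h1, one_smul]
    rw [h2 (B f₁ v • e₁ - B e₁ v • f₁ + (B f₂ v • e₂ - B e₂ v • f₂))]
    module

theorem mul_zero_left'' {a b : ℝ} (h : a * b = 0) (ha : a ≠ 0) : b = 0 := by
  rcases mul_eq_zero.1 h with h | h
  · exact absurd h ha
  · exact h

/-- projection to `E+` -/
noncomputable def pp (B : U →ₗ[ℝ] U →ₗ[ℝ] ℝ) (e₁ f₁ e₂ f₂ : U) : End ℝ U :=
  (B f₁).smulRight e₁ + (B f₂).smulRight e₂

theorem pp_apply (v : U) : pp B e₁ f₁ e₂ f₂ v = B f₁ v • e₁ + B f₂ v • e₂ := by
  simp [pp]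

theorem pp_wt (P : Pair B e₁ f₁ e₂ f₂) {μ : ℝ} {u : U} (hu : xx B e₁ f₁ e₂ f₂ 1 1 u = μ • u)
    (hμ : μ ≠ 1) : pp B e₁ f₁ e₂ f₂ u = 0 := by
  obtain ⟨k1, k2, k3, k4, k5⟩ := eig P hu
  have l1 := mul_zero_left'' k1 (sub_ne_zero.2 hμ)
  have l3 := mul_zero_left'' k3 (sub_ne_zero.2 hμ)
  rw [pp_apply, l1, l3]
  simp

theorem pp_wt1 (P : Pair B e₁ f₁ e₂ f₂) {u : U}
    (hu : xx B e₁ f₁ e₂ f₂ 1 1 u = (1 : ℝ) • u) : pp B e₁ f₁ e₂ f₂ u = u := by
  obtain ⟨k1, k2, k3, k4, k5⟩ := eig P hu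
  have l2 := mul_zero_left'' k2 (by norm_num)
  have l4 := mul_zero_left'' k4 (by norm_num)
  have l5 := (smul_eq_zero.1 k5).resolve_left (by norm_num)
  conv_rhs => rw [eq_comp l5, l2, l4]
  rw [pp_apply]
  simp

theorem xx_pp (P : Pair B e₁ f₁ e₂ f₂) (v : U) :
    xx B e₁ f₁ e₂ f₂ 1 1 (pp B e₁ f₁ e₂ f₂ v) = (1 : ℝ) • pp B e₁ f₁ e₂ f₂ v := by
  rw [pp_apply, map_add, map_smul, map_smul, xx_e1 P, xx_e2 P]
  simp

theorem decomp_pp (v : U) :
    v = (pp B e₁ f₁ e₂ f₂ v + B e₁ v • f₁ + B e₂ v • f₂) + pr B e₁ f₁ e₂ f₂ v := by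
  rw [pr_apply, pp_apply]; abel

/-- the closure argument -/
theorem clos_plus (CLOS : S_clos) [FiniteDimensional ℝ U] {h n : Submodule ℝ (End ℝ U)}
    (D : Dat B h n) (P : Pair B e₁ f₁ e₂ f₂) (hx : xx B e₁ f₁ e₂ f₂ 1 1 ∈ h)
    (L : Submodule ℝ (U × U)) (hJ : JStable L) (hL0 : L ≠ ⊥)
    (hLp : ∀ p ∈ L, pp B e₁ f₁ e₂ f₂ p.1 = p.1 ∧ pp B e₁ f₁ e₂ f₂ p.2 = p.2)
    (hst : ∀ y ∈ h, Hom (xx B e₁ f₁ e₂ f₂ 1 1) 0 y → ∀ p ∈ L, ((y p.1, y p.2) : U × U) ∈ L)
    {u v : U} (hu : pp B e₁ f₁ e₂ f₂ u = u) (hv : pp B e₁ f₁ e₂ f₂ v = v) :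
    ((u, v) : U × U) ∈ L := by
  set Q := pp B e₁ f₁ e₂ f₂ with hQ
  set M : Submodule ℝ (U × U) := L.comap (Q.prodMap Q) with hM
  have hMm : ∀ p : U × U, p ∈ M ↔ ((Q p.1, Q p.2) : U × U) ∈ L := by
    intro p
    rw [hM, Submodule.mem_comap]
    rfl
  have htop := CLOS U (xx B e₁ f₁ e₂ f₂ 1 1) h (diag_xx P 1 1) hx D.lie D.irr L M hJ ?_ ?_ hL0
    ?_ ?_
  · have h1 : ((u, v) : U × U) ∈ M := by rw [htop]; trivial
    rw [hMm, hu, hv] at h1
    exact h1
  · intro p hp
    rw [hMm] at hp ⊢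
    have := hJ _ hp
    simpa using this
  · intro p hp
    rw [hMm, (hLp p hp).1, (hLp p hp).2]
    exact hp
  · intro α hα y hy hom p hp
    have key : ∀ w, Q w = w → y w = 0 := by
      intro w hw
      have hxw : xx B e₁ f₁ e₂ f₂ 1 1 w = (1 : ℝ) • w := by
        have := xx_pp P w
        rwa [← hQ, hw] at this
      obtain ⟨k1, k2, k3, k4, k5⟩ := eig P (hom_eig hom hxw)
      have l1 := mul_zero_left'' k1 (by linarith)
      have l2 := mul_zero_left'' k2 (by linarith)
      have l3 := mul_zero_left'' k3 (by linarith)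
      have l4 := mul_zero_left'' k4 (by linarith)
      have l5 := (smul_eq_zero.1 k5).resolve_left (by linarith)
      rw [eq_comp l5, l1, l2, l3, l4]
      simp
    exact ⟨key _ (hLp p hp).1, key _ (hLp p hp).2⟩
  · intro α hα y hy hom p hp
    rw [hMm] at hp ⊢
    have z1 : Q (y f₁) = 0 := pp_wt P (hom_eig hom (xx_f1 P 1 1)) (by linarith)
    have z2 : Q (y f₂) = 0 := pp_wt P (hom_eig hom (xx_f2 P 1 1)) (by linarith)
    have z3 : ∀ w, Q (y (pr B e₁ f₁ e₂ f₂ w)) = 0 := fun w =>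
      pp_wt P (hom_eig hom (xx_perp (perp_pr P w) 1 1)) (by linarith)
    have z4 : ∀ w, Q (y w) = Q (y (Q w)) := by
      intro w
      conv_lhs => rw [decomp_pp (B := B) (e₁ := e₁) (f₁ := f₁) (e₂ := e₂) (f₂ := f₂) w]
      simp only [map_add, map_smul, z1, z2, z3, ← hQ, smul_zero, add_zero]
    rcases lt_or_eq_of_le hα with hneg | rfl
    · have z5 : ∀ w, Q (y w) = 0 := by
        intro w
        rw [z4]
        exact pp_wt P (hom_eig hom (xx_pp P w)) (by linarith)
      simp only [z5]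
      exact L.zero_mem
    · have z5 : ∀ w, Q (y w) = y (Q w) := by
        intro w
        rw [z4]
        have := hom_eig hom (xx_pp P w)
        rw [add_zero] at this
        exact pp_wt1 P this
      simp only [z5]
      exact hst y hy hom _ hp

/-- the complex line spanned by `u + i v` -/
def cln (u v : U) : Submodule ℝ (U × U) where
  carrier := {p | ∃ s t : ℝ, p = (s • u - t • v, s • v + t • u)}
  zero_mem' := ⟨0, 0, by simp only [zero_smul, sub_zero, add_zero]; rfl⟩
  add_mem' := by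
    rintro _ _ ⟨s, t, rfl⟩ ⟨s', t', rfl⟩
    refine ⟨s + s', t + t', ?_⟩
    rw [Prod.mk_add_mk]
    congr 1 <;> module
  smul_mem' := by
    rintro c _ ⟨s, t, rfl⟩
    refine ⟨c * s, c * t, ?_⟩
    rw [Prod.smul_mk]
    congr 1 <;> module

theorem jstable_cln (u v : U) : JStable (cln u v) := by
  rintro _ ⟨s, t, rfl⟩
  refine ⟨-t, s, ?_⟩
  congr 1 <;> module

end

theorem t_EQ (CLOS : S_clos) (REH : S_reH) : S_eq := by
  intro U _ _ _ B h n D e₁ f₁ e₂ f₂ H hx
  have P := pair_of H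
  have hs := P.hs
  have hxx : xx B e₁ f₁ e₂ f₂ 1 1 = wedge B f₁ e₁ + wedge B f₂ e₂ := by
    simp [xx]
  have hxn : xx B e₁ f₁ e₂ f₂ 1 1 ∈ n := by rw [hxx]; exact hx
  have hxh := D.sub hxn
  set x := xx B e₁ f₁ e₂ f₂ 1 1 with hx_def
  -- elements of degree zero on `E+`
  have hE1 : ∀ y ∈ h, Hom x 0 y → y e₁ = B f₁ (y e₁) • e₁ + B f₂ (y e₁) • e₂ := by
    intro y hy hom
    have h1 := hom_eig hom (xx_e1 P 1 1)
    rw [add_zero] at h1
    have := pp_wt1 P h1
    rw [pp_apply] at this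
    exact this.symm
  have hE2 : ∀ y ∈ h, Hom x 0 y → y e₂ = B f₁ (y e₂) • e₁ + B f₂ (y e₂) • e₂ := by
    intro y hy hom
    have h1 := hom_eig hom (xx_e2 P 1 1)
    rw [add_zero] at h1
    have := pp_wt1 P h1
    rw [pp_apply] at this
    exact this.symm
  by_cases hpos : ∃ y ∈ h, Hom x 0 y ∧
      0 < (B f₁ (y e₁) - B f₂ (y e₂)) ^ 2 + 4 * B f₂ (y e₁) * B f₁ (y e₂)
  · obtain ⟨y, hy, hom, hdisc⟩ := hpos
    obtain ⟨m11, m12, m21, m22, l, m, hd0, hlm, r1, r2, r3, r4⟩ := diag2 _ _ _ _ hdisc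
    have y1 := hE1 y hy hom
    have y2 := hE2 y hy hom
    generalize hp : B f₁ (y e₁) = p at *
    generalize hq : B f₂ (y e₁) = q at *
    generalize hr : B f₁ (y e₂) = r at *
    generalize hsx : B f₂ (y e₂) = s at *
    obtain ⟨H', hw⟩ := hyp2_basis H rfl hd0
    set d := m11 * m22 - m12 * m21 with hd
    set e₁' := m11 • e₁ + m21 • e₂ with he₁'
    set e₂' := m12 • e₁ + m22 • e₂ with he₂'
    set f₁' := d⁻¹ • (m22 • f₁ - m12 • f₂) with hf₁'
    set f₂' := d⁻¹ • (m11 • f₂ - m21 • f₁) with hf₂'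
    have P' := pair_of H'
    have hx' : xx B e₁' f₁' e₂' f₂' 1 1 = x := by
      rw [hxx, ← hw]
      simp [xx]
    have hye1 : y e₁' = l • e₁' := by
      rw [he₁', map_add, map_smul, map_smul, y1, y2]
      have : l • (m11 • e₁ + m21 • e₂) = (l * m11) • e₁ + (l * m21) • e₂ := by module
      rw [this, ← r1, ← r2]
      module
    have hye2 : y e₂' = m • e₂' := by
      rw [he₂', map_add, map_smul, map_smul, y1, y2]
      have : m • (m12 • e₁ + m22 • e₂) = (m * m12) • e₁ + (m * m22) • e₂ := by module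
      rw [this, ← r3, ← r4]
      module
    have hsk := D.skew y hy
    have hmv := fun u v => skew_mv (u := u) (v := v) hsk
    have hom' : Hom (xx B e₁' f₁' e₂' f₂' 1 1) 0 y := by rw [hx']; exact hom
    have hyf1 : y f₁' = -(l • f₁') := by
      obtain ⟨k1, k2, k3, k4, k5⟩ := eig P' (hom_eig hom' (xx_f1 P' 1 1))
      have l1 := mul_zero_left'' k1 (by norm_num)
      have l2 : B e₁' (y f₁') = - l := by rw [hmv, hye1]; simp [P'.p3]
      have l3 := mul_zero_left'' k3 (by norm_num)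
      have l4 : B e₂' (y f₁') = 0 := by rw [hmv, hye2]; simp [P'.p9']
      have l5 := (smul_eq_zero.1 k5).resolve_left (by norm_num)
      rw [eq_comp l5, l1, l2, l3, l4]
      simp
    have hyf2 : y f₂' = -(m • f₂') := by
      obtain ⟨k1, k2, k3, k4, k5⟩ := eig P' (hom_eig hom' (xx_f2 P' 1 1))
      have l1 := mul_zero_left'' k1 (by norm_num)
      have l2 : B e₁' (y f₂') = 0 := by rw [hmv, hye1]; simp [P'.p8]
      have l3 := mul_zero_left'' k3 (by norm_num)
      have l4 : B e₂' (y f₂') = - m := by rw [hmv, hye2]; simp [P'.p6]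
      have l5 := (smul_eq_zero.1 k5).resolve_left (by norm_num)
      rw [eq_comp l5, l1, l2, l3, l4]
      simp
    have h1 := REH U B h n D e₁' f₁' e₂' f₂' H' y hy l m hye1 hyf1 hye2 hyf2
    refine ⟨e₁', f₁', H'.2.1, ?_⟩
    have h2 := n.sub_mem h1 (n.smul_mem m hxn)
    have h3 : (l - m) • wedge B f₁' e₁' ∈ n := by
      convert h2 using 1
      rw [← hx']
      simp only [xx, one_smul]
      module
    exact (n.smul_mem_iff (sub_ne_zero.2 hlm)).1 h3
  · exfalso
    push Not at hpos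
    have hpe1 : pp B e₁ f₁ e₂ f₂ e₁ = e₁ := by rw [pp_apply, P.p3', P.p8']; simp
    have hpe2 : pp B e₁ f₁ e₂ f₂ e₂ = e₂ := by rw [pp_apply, P.p9, P.p6']; simp
    have hp0 : pp B e₁ f₁ e₂ f₂ 0 = 0 := map_zero _
    have he1 : e₁ ≠ 0 := by
      intro h0
      have := P.p3
      rw [h0] at this
      simp at this
    by_cases hq : ∃ y ∈ h, Hom x 0 y ∧ B f₂ (y e₁) ≠ 0
    · obtain ⟨y₁, hy₁, hom₁, hq₁⟩ := hq
      have a1 := hE1 y₁ hy₁ hom₁
      have a2 := hE2 y₁ hy₁ hom₁
      have hD := hpos y₁ hy₁ hom₁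
      set p₁ := B f₁ (y₁ e₁) with hp₁
      set q₁ := B f₂ (y₁ e₁) with hq₁'
      set r₁ := B f₁ (y₁ e₂) with hr₁
      set s₁ := B f₂ (y₁ e₂) with hs₁
      -- every element of degree zero is a combination of `y₁` and a scalar on `E+`
      have hcomb : ∀ y ∈ h, Hom x 0 y → ∃ c g : ℝ, y e₁ = g • y₁ e₁ + c • e₁ ∧
          y e₂ = g • y₁ e₂ + c • e₂ := by
        intro y hy hom
        have b1 := hE1 y hy hom
        have b2 := hE2 y hy hom
        set p := B f₁ (y e₁) with hp
        set q := B f₂ (y e₁) with hq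
        set r := B f₁ (y e₂) with hr
        set s := B f₂ (y e₂) with hs'
        have hmem : q₁ • y - q • y₁ ∈ h := h.sub_mem (h.smul_mem _ hy) (h.smul_mem _ hy₁)
        have hhom' : Hom x 0 (q₁ • y - q • y₁) := by
          have h1 : x * y - y * x = (0 : ℝ) • y := hom
          have h2 : x * y₁ - y₁ * x = (0 : ℝ) • y₁ := hom₁
          have h3 : x * (q₁ • y - q • y₁) - (q₁ • y - q • y₁) * x =
              q₁ • (x * y - y * x) - q • (x * y₁ - y₁ * x) := by
            rw [mul_sub, sub_mul, mul_smul_comm, mul_smul_comm, smul_mul_assoc, smul_mul_assoc,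
              smul_sub, smul_sub]
            abel
          show x * (q₁ • y - q • y₁) - (q₁ • y - q • y₁) * x = (0 : ℝ) • _
          rw [h3, h1, h2]
          simp
        have hd1 := hpos _ hmem hhom'
        simp only [LinearMap.sub_apply, LinearMap.smul_apply, map_sub, map_smul, smul_eq_mul,
          ← hp, ← hq, ← hr, ← hs', ← hp₁, ← hq₁', ← hr₁, ← hs₁] at hd1
        have hz : q₁ * q - q * q₁ = 0 := by ring
        rw [hz, mul_zero, zero_mul, add_zero] at hd1
        have hps : q₁ * p - q * p₁ - (q₁ * s - q * s₁) = 0 := by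
          have := sq_nonneg (q₁ * p - q * p₁ - (q₁ * s - q * s₁))
          exact pow_eq_zero_iff (two_ne_zero) |>.1 (le_antisymm hd1 this)
        -- the coefficient `r`
        have hrr : q₁ * r - q * r₁ = 0 := by
          by_contra hne
          set t : ℝ := (1 - ((p₁ - s₁) ^ 2 + 4 * q₁ * r₁)) / (4 * q₁ * (q₁ * r - q * r₁)) with ht
          have ht' : t * (4 * q₁ * (q₁ * r - q * r₁)) = 1 - ((p₁ - s₁) ^ 2 + 4 * q₁ * r₁) := by
            rw [ht, div_mul_cancel₀]
            exact mul_ne_zero (mul_ne_zero (by norm_num) hq₁) hne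
          have hmem2 : y₁ + t • (q₁ • y - q • y₁) ∈ h := h.add_mem hy₁ (h.smul_mem _ hmem)
          have hhom2 : Hom x 0 (y₁ + t • (q₁ • y - q • y₁)) := by
            have h1 : x * (q₁ • y - q • y₁) - (q₁ • y - q • y₁) * x =
              (0 : ℝ) • (q₁ • y - q • y₁) := hhom'
            have h2 : x * y₁ - y₁ * x = (0 : ℝ) • y₁ := hom₁
            generalize (q₁ • y - q • y₁) = w at *
            show x * (y₁ + t • w) - (y₁ + t • w) * x = (0 : ℝ) • _
            have h3 : x * (y₁ + t • w) - (y₁ + t • w) * x =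
                (x * y₁ - y₁ * x) + t • (x * w - w * x) := by
              rw [mul_add, add_mul, mul_smul_comm, smul_mul_assoc, smul_sub]
              abel
            rw [h3, h1, h2]
            simp
          have hd2 := hpos _ hmem2 hhom2
          simp only [LinearMap.sub_apply, LinearMap.add_apply, LinearMap.smul_apply, map_sub,
            map_add, map_smul, smul_eq_mul,
            ← hp, ← hq, ← hr, ← hs', ← hp₁, ← hq₁', ← hr₁, ← hs₁] at hd2
          have e1 : p₁ + t * (q₁ * p - q * p₁) - (s₁ + t * (q₁ * s - q * s₁)) = p₁ - s₁ := by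
            linear_combination t * hps
          rw [e1, hz] at hd2
          have e2 : (p₁ - s₁) ^ 2 + 4 * (q₁ + t * 0) * (r₁ + t * (q₁ * r - q * r₁)) =
              (p₁ - s₁) ^ 2 + 4 * q₁ * r₁ + t * (4 * q₁ * (q₁ * r - q * r₁)) := by ring
          rw [e2, ht'] at hd2
          linarith
        refine ⟨p - q / q₁ * p₁, q / q₁, ?_, ?_⟩
        · rw [b1, a1]
          have e1 : q = q / q₁ * q₁ := by field_simp
          conv_lhs => rw [e1]
          module
        · rw [b2, a2]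
          have e1 : r = q / q₁ * r₁ := by
            field_simp
            linarith
          have e2 : s = q / q₁ * s₁ + (p - q / q₁ * p₁) := by
            field_simp
            linarith
          conv_lhs => rw [e1, e2]
          module
      set β : ℝ := Real.sqrt (-((p₁ - s₁) ^ 2 + 4 * q₁ * r₁)) / 2 with hβ
      have hβ2 : β * β = -((p₁ - s₁) ^ 2 + 4 * q₁ * r₁) / 4 := by
        rw [hβ]
        have := Real.mul_self_sqrt (show 0 ≤ -((p₁ - s₁) ^ 2 + 4 * q₁ * r₁) by linarith)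
        linarith
      set u := ((p₁ - s₁) / 2) • e₁ + q₁ • e₂ with hu
      set v := β • e₁ with hv
      have yu : y₁ u = ((p₁ + s₁) / 2) • u - β • v := by
        rw [hu, hv, map_add, map_smul, map_smul, a1, a2, smul_smul β β, hβ2]
        module
      have yv : y₁ v = β • u + ((p₁ + s₁) / 2) • v := by
        rw [hu, hv, map_smul, a1]
        module
      have hgen : ∀ y ∈ h, Hom x 0 y → ∃ a b : ℝ, y u = a • u - b • v ∧ y v = b • u + a • v := by
        intro y hy hom
        obtain ⟨c, g, c1, c2⟩ := hcomb y hy hom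
        refine ⟨g * ((p₁ + s₁) / 2) + c, g * β, ?_, ?_⟩
        · have : y u = g • y₁ u + c • u := by
            rw [hu, map_add, map_smul, map_smul, c1, c2, map_add, map_smul, map_smul]
            module
          rw [this, yu]
          module
        · have : y v = g • y₁ v + c • v := by
            rw [hv, map_smul, c1, map_smul]
            module
          rw [this, yv]
          module
      have hppu : pp B e₁ f₁ e₂ f₂ u = u := by
        rw [hu, map_add, map_smul, map_smul, hpe1, hpe2]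
      have hppv : pp B e₁ f₁ e₂ f₂ v = v := by
        rw [hv, map_smul, hpe1]
      have hmemL := clos_plus CLOS D P hxh (cln u v) (jstable_cln u v) ?_ ?_ ?_ hpe1 hp0
      · obtain ⟨s, t, hst⟩ := hmemL
        have h1 : e₁ = s • u - t • v := congrArg Prod.fst hst
        have h2 : (0 : U) = s • v + t • u := congrArg Prod.snd hst
        have h3 := congrArg (B f₂) h1
        have h4 := congrArg (B f₂) h2
        simp only [hu, hv, map_add, map_sub, map_smul, smul_eq_mul, P.p8', P.p6', map_zero,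
          mul_zero, mul_one, zero_add, sub_zero] at h3 h4
        have hs0 : s = 0 := (mul_eq_zero.1 h3.symm).resolve_right hq₁
        have ht0 : t = 0 := (mul_eq_zero.1 h4.symm).resolve_right hq₁
        rw [hs0, ht0] at h1
        simp at h1
        exact he1 h1
      · intro hbot
        have h1 : ((u, v) : U × U) ∈ cln u v := ⟨1, 0, by simp⟩
        rw [hbot, Submodule.mem_bot] at h1
        have h2 : u = 0 := congrArg Prod.fst h1
        have h3 := congrArg (B f₂) h2
        simp only [hu, map_add, map_smul, smul_eq_mul, P.p8', P.p6', map_zero, mul_zero, mul_one,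
          zero_add] at h3
        exact hq₁ h3
      · rintro _ ⟨s, t, rfl⟩
        simp only [map_add, map_sub, map_smul, hppu, hppv, and_self]
      · rintro y hy hom _ ⟨s, t, rfl⟩
        obtain ⟨a, b, c1, c2⟩ := hgen y hy hom
        refine ⟨s * a - t * b, s * b + t * a, ?_⟩
        simp only [map_add, map_sub, map_smul, c1, c2]
        congr 1 <;> module
    · push Not at hq
      have hmemL := clos_plus CLOS D P hxh (cline e₁) (jstable_cline e₁) (cline_ne_bot he1)
        ?_ ?_ hpe2 hp0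
      · obtain ⟨s, t, hst⟩ := hmemL
        have h1 : e₂ = s • e₁ := congrArg Prod.fst hst
        have h2 := congrArg (B f₂) h1
        rw [map_smul, P.p8', P.p6'] at h2
        simp at h2
      · rintro _ ⟨s, t, rfl⟩
        simp only [map_smul, hpe1, and_self]
      · rintro y hy hom _ ⟨s, t, rfl⟩
        have h1 := hE1 y hy hom
        rw [hq y hy hom, zero_smul, add_zero] at h1
        refine ⟨s * B f₁ (y e₁), t * B f₁ (y e₁), ?_⟩
        simp only [map_smul]
        rw [mul_smul, mul_smul, ← h1]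

end Pool.Agent.V5helper40.DRB
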