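import Pool.Agent.V5helper40.DRB.Wt

open Module Finset

namespace Pool.Agent.V5helper40.DRB

open Pool.Agent.W544.K3

set_option linter.unusedSimpArgs false

theorem mul_zero_left' {a b : ℝ} (h : a * b = 0) (ha : a ≠ 0) : b = 0 := by
  rcases mul_eq_zero.1 h with h | h
  · exact absurd h ha
  · exact h

section
variable {U : Type} [AddCommGroup U] [Module ℝ U]

/-- vectors whose part `z` orthogonal to the four vectors has `k f₁ ∧ e₂ + f₂ ∧ z ∈ h` -/
noncomputable def MM (B : U →ₗ[ℝ] U →ₗ[ℝ] ℝ) (h : Submodule ℝ (End ℝ U)) (e₁ f₁ e₂ f₂ : U) :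
    Submodule ℝ U where
  carrier := {v | ∃ κ : ℝ, κ • wedge B f₁ e₂ + wedge B f₂ (pr B e₁ f₁ e₂ f₂ v) ∈ h}
  zero_mem' := ⟨0, by
    have : (0 : ℝ) • wedge B f₁ e₂ + wedge B f₂ (pr B e₁ f₁ e₂ f₂ 0) = 0 := by
      rw [map_zero]
      ext w
      simp [wedge_apply]
    rw [this]
    exact h.zero_mem⟩
  add_mem' := by
    rintro u v ⟨κ, hκ⟩ ⟨κ', hκ'⟩
    refine ⟨κ + κ', ?_⟩
    have := h.add_mem hκ hκ'
    convert this using 1
    ext w
    simp only [map_add, LinearMap.add_apply, LinearMap.smul_apply, wedge_apply]
    module
  smul_mem' := by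
    rintro c v ⟨κ, hκ⟩
    refine ⟨c * κ, ?_⟩
    have := h.smul_mem c hκ
    convert this using 1
    ext w
    simp only [map_smul, LinearMap.add_apply, LinearMap.smul_apply, wedge_apply, smul_eq_mul]
    module

variable {B : U →ₗ[ℝ] U →ₗ[ℝ] ℝ} {h : Submodule ℝ (End ℝ U)} {e₁ f₁ e₂ f₂ : U}

theorem mem_MM_of_pr {v : U} (hv : pr B e₁ f₁ e₂ f₂ v = 0) : v ∈ MM B h e₁ f₁ e₂ f₂ := by
  refine ⟨0, ?_⟩
  rw [hv]
  convert h.zero_mem using 1
  ext w
  simp [wedge_apply]

theorem mem_MM_of_perp {v : U} (hv : Perp B e₁ f₁ e₂ f₂ v) (κ : ℝ)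
    (hh : κ • wedge B f₁ e₂ + wedge B f₂ v ∈ h) : v ∈ MM B h e₁ f₁ e₂ f₂ := by
  refine ⟨κ, ?_⟩
  rw [pr_of_perp hv]
  exact hh

theorem pr_vec (P : Pair B e₁ f₁ e₂ f₂) : pr B e₁ f₁ e₂ f₂ e₁ = 0 ∧ pr B e₁ f₁ e₂ f₂ f₁ = 0 ∧
    pr B e₁ f₁ e₂ f₂ e₂ = 0 ∧ pr B e₁ f₁ e₂ f₂ f₂ = 0 := by
  obtain ⟨hs, p1, p2, p3, p4, p5, p6, p7, p8, p9, p10, p3', p6', p7', p8', p9', p10'⟩ := P
  refine ⟨?_, ?_, ?_, ?_⟩ <;> simp [pr_apply, p1, p2, p3, p4, p5, p6, p7, p8, p9, p10, p3', p6',
    p7', p8', p9', p10']

end

theorem t_NEM (CLOS : S_clos) : S_neM := by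
  intro U _ _ _ B h n D e₁ f₁ e₂ f₂ H b hb hx hyp
  have P := pair_of H
  have hs := P.hs
  change xx B e₁ f₁ e₂ f₂ (2 * b) b ∈ n at hx
  have hxh : xx B e₁ f₁ e₂ f₂ (2 * b) b ∈ h := D.sub hx
  have htop := CLOS U (xx B e₁ f₁ e₂ f₂ (2 * b) b) h (diag_xx P _ _) hxh D.lie D.irr
      (cline e₁) (sq (MM B h e₁ f₁ e₂ f₂)) (jstable_cline _) (jstable_sq _)
      (cline_le_sq (mem_MM_of_pr (pr_vec P).1))
      (cline_ne_bot (by
        rintro h0
        have := P.p3
        rw [h0] at this
        simp at this)) ?_ ?_
  · intro z hz
    obtain ⟨κ, hκ⟩ := sq_top htop z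
    rw [pr_of_perp hz] at hκ
    exact ⟨κ, hκ⟩
  · -- positive degree
    intro α hα y hy hom p hp
    have h1 : y e₁ = 0 := by
      obtain ⟨k1, k2, k3, k4, k5⟩ := eig P (hom_eig hom (xx_e1 P (2 * b) b))
      have l1 := mul_zero_left' k1 (by linarith)
      have l2 := mul_zero_left' k2 (by linarith)
      have l3 := mul_zero_left' k3 (by linarith)
      have l4 := mul_zero_left' k4 (by linarith)
      have l5 := (smul_eq_zero.1 k5).resolve_left (by linarith)
      rw [eq_comp l5, l1, l2, l3, l4]
      simp
    obtain ⟨s, t, rfl⟩ := hp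
    simp [h1]
  · -- nonpositive degree
    intro α hα y hy hom p hp
    have hsk := D.skew y hy
    have hmv := fun u v => skew_mv (u := u) (v := v) hsk
    -- vectors of nonzero weight
    have hnz : ∀ (μ : ℝ) (v : U), xx B e₁ f₁ e₂ f₂ (2 * b) b v = μ • v → μ + α ≠ 0 →
        y v ∈ MM B h e₁ f₁ e₂ f₂ := by
      intro μ v hv hμ
      obtain ⟨k1, k2, k3, k4, k5⟩ := eig P (hom_eig hom hv)
      exact mem_MM_of_pr ((smul_eq_zero.1 k5).resolve_left hμ)
    have key : ∀ v ∈ MM B h e₁ f₁ e₂ f₂, y v ∈ MM B h e₁ f₁ e₂ f₂ := by
      intro v hv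
      rcases lt_or_eq_of_le hα with hneg | rfl
      · -- negative degree
        have m1 : y f₁ ∈ MM B h e₁ f₁ e₂ f₂ := hnz _ _ (xx_f1 P _ _) (by linarith)
        have m2 : y f₂ ∈ MM B h e₁ f₁ e₂ f₂ := hnz _ _ (xx_f2 P _ _) (by linarith)
        have m3 : y (pr B e₁ f₁ e₂ f₂ v) ∈ MM B h e₁ f₁ e₂ f₂ :=
          hnz _ _ (xx_perp (perp_pr P v) _ _) (by linarith)
        have m4 : y e₁ ∈ MM B h e₁ f₁ e₂ f₂ := by
          by_cases hα2 : 2 * b + α = 0
          · have hα3 : α = -(2 * b) := by linarith
            subst hα3
            obtain ⟨k1, k2, k3, k4, k5⟩ := eig P (hom_eig hom (xx_e1 P (2 * b) b))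
            have l1 := mul_zero_left' k1 (by linarith)
            have l2 := mul_zero_left' k2 (by linarith)
            have l3 := mul_zero_left' k3 (by linarith)
            have l4 := mul_zero_left' k4 (by linarith)
            have hPerp : Perp B e₁ f₁ e₂ f₂ (y e₁) := ⟨l2, l1, l4, l3⟩
            obtain ⟨z1, z2, z3, z4⟩ := perp_symm hs hPerp
            have heq : y = wedge B f₁ (y e₁) := by
              apply ext_op P
              · simp [wedge_apply, P.p3', z1]
              · have : y f₁ = 0 := by
                  obtain ⟨k1, k2, k3, k4, k5⟩ := eig P (hom_eig hom (xx_f1 P (2 * b) b))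
                  have l1 := mul_zero_left' k1 (by linarith)
                  have l2 := mul_zero_left' k2 (by linarith)
                  have l3 := mul_zero_left' k3 (by linarith)
                  have l4 := mul_zero_left' k4 (by linarith)
                  have l5 := (smul_eq_zero.1 k5).resolve_left (by linarith)
                  rw [eq_comp l5, l1, l2, l3, l4]
                  simp
                rw [this]
                simp [wedge_apply, P.p2, z2]
              · have : y e₂ = 0 := by
                  obtain ⟨k1, k2, k3, k4, k5⟩ := eig P (hom_eig hom (xx_e2 P (2 * b) b))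
                  have l1 := mul_zero_left' k1 (by linarith)
                  have l2 := mul_zero_left' k2 (by linarith)
                  have l3 := mul_zero_left' k3 (by linarith)
                  have l4 : B e₂ (y e₂) = 0 := skew_self hs hsk e₂
                  have l5 := (smul_eq_zero.1 k5).resolve_left (by linarith)
                  rw [eq_comp l5, l1, l2, l3, l4]
                  simp
                rw [this]
                simp [wedge_apply, P.p9, z3]
              · have : y f₂ = 0 := by
                  obtain ⟨k1, k2, k3, k4, k5⟩ := eig P (hom_eig hom (xx_f2 P (2 * b) b))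
                  have l1 := mul_zero_left' k1 (by linarith)
                  have l2 := mul_zero_left' k2 (by linarith)
                  have l3 := mul_zero_left' k3 (by linarith)
                  have l4 := mul_zero_left' k4 (by linarith)
                  have l5 := (smul_eq_zero.1 k5).resolve_left (by linarith)
                  rw [eq_comp l5, l1, l2, l3, l4]
                  simp
                rw [this]
                simp [wedge_apply, P.p10, z4]
              · intro w hw
                obtain ⟨w1, w2, w3, w4⟩ := hw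
                have : y w = -(B (y e₁) w) • f₁ := by
                  obtain ⟨k1, k2, k3, k4, k5⟩ :=
                    eig P (hom_eig hom (xx_perp ⟨w1, w2, w3, w4⟩ (2 * b) b))
                  have l1 := mul_zero_left' k1 (by linarith)
                  have l2 : B e₁ (y w) = - B (y e₁) w := by rw [hmv]
                  have l3 := mul_zero_left' k3 (by linarith)
                  have l4 := mul_zero_left' k4 (by linarith)
                  have l5 := (smul_eq_zero.1 k5).resolve_left (by linarith)
                  rw [eq_comp l5, l1, l2, l3, l4]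
                  simp
                rw [this]
                simp [wedge_apply, w1, w2, w3, w4]
            obtain ⟨κ, hκ⟩ := hyp (y e₁) hPerp (by rw [← heq]; exact hy)
            exact mem_MM_of_perp hPerp κ hκ
          · exact hnz _ _ (xx_e1 P _ _) hα2
        have m5 : y e₂ ∈ MM B h e₁ f₁ e₂ f₂ := by
          by_cases hα2 : b + α = 0
          · have hα3 : α = -b := by linarith
            subst hα3
            obtain ⟨k1, k2, k3, k4, k5⟩ := eig P (hom_eig hom (xx_e2 P (2 * b) b))
            have l1 := mul_zero_left' k1 (by linarith)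
            have l2 := mul_zero_left' k2 (by linarith)
            have l3 := mul_zero_left' k3 (by linarith)
            have l4 := mul_zero_left' k4 (by linarith)
            have hPerp : Perp B e₁ f₁ e₂ f₂ (y e₂) := ⟨l2, l1, l4, l3⟩
            obtain ⟨z1, z2, z3, z4⟩ := perp_symm hs hPerp
            have heq : y = B f₂ (y e₁) • wedge B f₁ e₂ + wedge B f₂ (y e₂) := by
              apply ext_op P
              · have : y e₁ = B f₂ (y e₁) • e₂ := by
                  obtain ⟨k1, k2, k3, k4, k5⟩ := eig P (hom_eig hom (xx_e1 P (2 * b) b))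
                  have l1 := mul_zero_left' k1 (by linarith)
                  have l2 := mul_zero_left' k2 (by linarith)
                  have l4 := mul_zero_left' k4 (by linarith)
                  have l5 := (smul_eq_zero.1 k5).resolve_left (by linarith)
                  conv_lhs => rw [eq_comp l5, l1, l2, l4]
                  simp
                simp only [LinearMap.add_apply, LinearMap.smul_apply, wedge_apply, P.p3', P.p7',
                  P.p8', z1, one_smul, zero_smul, sub_zero, add_zero]
                exact this
              · have : y f₁ = 0 := by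
                  obtain ⟨k1, k2, k3, k4, k5⟩ := eig P (hom_eig hom (xx_f1 P (2 * b) b))
                  have l1 := mul_zero_left' k1 (by linarith)
                  have l2 := mul_zero_left' k2 (by linarith)
                  have l3 := mul_zero_left' k3 (by linarith)
                  have l4 := mul_zero_left' k4 (by linarith)
                  have l5 := (smul_eq_zero.1 k5).resolve_left (by linarith)
                  rw [eq_comp l5, l1, l2, l3, l4]
                  simp
                rw [this]
                simp [wedge_apply, P.p2, P.p9', P.p10', z2]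
              · simp [wedge_apply, P.p9, P.p4, P.p6', z3]
              · have : y f₂ = -(B f₂ (y e₁)) • f₁ := by
                  obtain ⟨k1, k2, k3, k4, k5⟩ := eig P (hom_eig hom (xx_f2 P (2 * b) b))
                  have l1 := mul_zero_left' k1 (by linarith)
                  have l2 : B e₁ (y f₂) = - B f₂ (y e₁) := by rw [hmv, hs]
                  have l3 := mul_zero_left' k3 (by linarith)
                  have l4 := mul_zero_left' k4 (by linarith)
                  have l5 := (smul_eq_zero.1 k5).resolve_left (by linarith)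
                  rw [eq_comp l5, l1, l2, l3, l4]
                  simp
                rw [this]
                simp [wedge_apply, P.p10, P.p6, P.p5, z4]
              · intro w hw
                obtain ⟨w1, w2, w3, w4⟩ := hw
                have : y w = -(B (y e₂) w) • f₂ := by
                  obtain ⟨k1, k2, k3, k4, k5⟩ :=
                    eig P (hom_eig hom (xx_perp ⟨w1, w2, w3, w4⟩ (2 * b) b))
                  have l1 := mul_zero_left' k1 (by linarith)
                  have l2 := mul_zero_left' k2 (by linarith)
                  have l3 := mul_zero_left' k3 (by linarith)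
                  have l4 : B e₂ (y w) = - B (y e₂) w := by rw [hmv]
                  have l5 := (smul_eq_zero.1 k5).resolve_left (by linarith)
                  rw [eq_comp l5, l1, l2, l3, l4]
                  simp
                rw [this]
                simp [wedge_apply, w1, w2, w3, w4]
            exact mem_MM_of_perp hPerp _ (by rw [← heq]; exact hy)
          · exact hnz _ _ (xx_e2 P _ _) hα2
        rw [decomp B e₁ f₁ e₂ f₂ v]
        simp only [map_add, map_smul]
        have add := fun {u v} => (MM B h e₁ f₁ e₂ f₂).add_mem (x := u) (y := v)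
        have sm := fun (c : ℝ) {u} (hu : u ∈ MM B h e₁ f₁ e₂ f₂) =>
          (MM B h e₁ f₁ e₂ f₂).smul_mem c hu
        exact add (add (add (add (sm _ m4) (sm _ m1)) (sm _ m5)) (sm _ m2)) m3
      · -- degree zero
        have m1 : y f₁ ∈ MM B h e₁ f₁ e₂ f₂ := hnz _ _ (xx_f1 P _ _) (by linarith)
        have m2 : y f₂ ∈ MM B h e₁ f₁ e₂ f₂ := hnz _ _ (xx_f2 P _ _) (by linarith)
        have m4 : y e₁ ∈ MM B h e₁ f₁ e₂ f₂ := hnz _ _ (xx_e1 P _ _) (by linarith)
        have m5 : y e₂ ∈ MM B h e₁ f₁ e₂ f₂ := hnz _ _ (xx_e2 P _ _) (by linarith)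
        have m3 : y (pr B e₁ f₁ e₂ f₂ v) ∈ MM B h e₁ f₁ e₂ f₂ := by
          obtain ⟨κ, hκ⟩ := hv
          have hz := perp_pr P v
          set z := pr B e₁ f₁ e₂ f₂ v with hz_def
          obtain ⟨k1, k2, k3, k4, k5⟩ := eig P (hom_eig hom (xx_perp hz (2 * b) b))
          have l1 := mul_zero_left' k1 (by linarith)
          have l2 := mul_zero_left' k2 (by linarith)
          have l3 := mul_zero_left' k3 (by linarith)
          have l4 := mul_zero_left' k4 (by linarith)
          have hyz : Perp B e₁ f₁ e₂ f₂ (y z) := ⟨l2, l1, l4, l3⟩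
          have hf1 : y f₁ = -(B f₁ (y e₁)) • f₁ := by
            obtain ⟨k1, k2, k3, k4, k5⟩ := eig P (hom_eig hom (xx_f1 P (2 * b) b))
            have l1 := mul_zero_left' k1 (by linarith)
            have l2 : B e₁ (y f₁) = - B f₁ (y e₁) := by rw [hmv, hs]
            have l3 := mul_zero_left' k3 (by linarith)
            have l4 := mul_zero_left' k4 (by linarith)
            have l5 := (smul_eq_zero.1 k5).resolve_left (by linarith)
            rw [eq_comp l5, l1, l2, l3, l4]
            simp
          have hf2 : y f₂ = -(B f₂ (y e₂)) • f₂ := by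
            obtain ⟨k1, k2, k3, k4, k5⟩ := eig P (hom_eig hom (xx_f2 P (2 * b) b))
            have l1 := mul_zero_left' k1 (by linarith)
            have l2 := mul_zero_left' k2 (by linarith)
            have l3 := mul_zero_left' k3 (by linarith)
            have l4 : B e₂ (y f₂) = - B f₂ (y e₂) := by rw [hmv, hs]
            have l5 := (smul_eq_zero.1 k5).resolve_left (by linarith)
            rw [eq_comp l5, l1, l2, l3, l4]
            simp
          have he2 : y e₂ = (B f₂ (y e₂)) • e₂ := by
            obtain ⟨k1, k2, k3, k4, k5⟩ := eig P (hom_eig hom (xx_e2 P (2 * b) b))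
            have l1 := mul_zero_left' k1 (by linarith)
            have l2 := mul_zero_left' k2 (by linarith)
            have l4 := mul_zero_left' k4 (by linarith)
            have l5 := (smul_eq_zero.1 k5).resolve_left (by linarith)
            conv_lhs => rw [eq_comp l5, l1, l2, l4]
            simp
          have hc1 := D.lie y hy _ hκ
          have hc2 := h.add_mem hc1 (h.smul_mem (B f₂ (y e₂)) hκ)
          apply mem_MM_of_perp hyz (-(B f₁ (y e₁)) * κ + 2 * B f₂ (y e₂) * κ)
          convert hc2 using 1
          have e1 : y * (κ • wedge B f₁ e₂ + wedge B f₂ z) -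
              (κ • wedge B f₁ e₂ + wedge B f₂ z) * y =
              κ • (wedge B (y f₁) e₂ + wedge B f₁ (y e₂)) +
                (wedge B (y f₂) z + wedge B f₂ (y z)) := by
            rw [← lie_wedge hsk, ← lie_wedge hsk, mul_add, add_mul, mul_smul_comm, smul_mul_assoc,
              smul_sub]
            abel
          rw [e1, hf1, hf2]
          generalize hg : B f₂ (y e₂) = g at *
          rw [he2]
          ext w
          simp only [LinearMap.add_apply, LinearMap.smul_apply, wedge_apply, map_smul, map_neg,
            smul_eq_mul, neg_smul, LinearMap.neg_apply]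
          module
        rw [decomp B e₁ f₁ e₂ f₂ v]
        simp only [map_add, map_smul]
        have add := fun {u v} => (MM B h e₁ f₁ e₂ f₂).add_mem (x := u) (y := v)
        have sm := fun (c : ℝ) {u} (hu : u ∈ MM B h e₁ f₁ e₂ f₂) =>
          (MM B h e₁ f₁ e₂ f₂).smul_mem c hu
        exact add (add (add (add (sm _ m4) (sm _ m1)) (sm _ m5)) (sm _ m2)) m3
    exact ⟨key _ hp.1, key _ hp.2⟩

end Pool.Agent.V5helper40.DRB
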