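import Pool.Agent.V5helper40.DRB.Wt

open Module Finset

namespace Pool.Agent.V5helper40.DRB

open Pool.Agent.W544.K3

set_option linter.unusedSimpArgs false

theorem mul_zero_left {a b : ℝ} (h : a * b = 0) (ha : a ≠ 0) : b = 0 := by
  rcases mul_eq_zero.1 h with h | h
  · exact absurd h ha
  · exact h

theorem t_NEY (CLOS : S_clos) : S_neY := by
  intro U _ _ _ B h n D e₁ f₁ e₂ f₂ H a b hb hab hx
  have P := pair_of H
  have ha : 0 < a := by linarith
  have hs := P.hs
  change xx B e₁ f₁ e₂ f₂ a b ∈ n at hx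
  have hxh : xx B e₁ f₁ e₂ f₂ a b ∈ h := D.sub hx
  -- an element of degree `b - a` which does not kill `e₁`
  have hex : ∃ y ∈ h, Hom (xx B e₁ f₁ e₂ f₂ a b) (b - a) y ∧ y e₁ ≠ 0 := by
    by_contra hcon
    push Not at hcon
    have htop := CLOS U (xx B e₁ f₁ e₂ f₂ a b) h (diag_xx P a b) hxh D.lie D.irr
      (cline e₁) (sq (LinearMap.ker (B f₂))) (jstable_cline _) (jstable_sq _)
      (cline_le_sq (by rw [LinearMap.mem_ker]; exact P.p8'))
      (cline_ne_bot (by
        rintro h0
        have := P.p3
        rw [h0] at this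
        simp at this)) ?_ ?_
    · have h1 := sq_top htop e₂
      rw [LinearMap.mem_ker, P.p6'] at h1
      exact one_ne_zero h1
    · -- positive degree
      intro α hα y hy hom p hp
      have h1 : y e₁ = 0 := by
        have h2 := eig P (hom_eig hom (xx_e1 P a b))
        obtain ⟨k1, k2, k3, k4, k5⟩ := h2
        have l1 := mul_zero_left k1 (by linarith)
        have l2 := mul_zero_left k2 (by linarith)
        have l3 := mul_zero_left k3 (by linarith)
        have l4 := mul_zero_left k4 (by linarith)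
        have l5 := (smul_eq_zero.1 k5).resolve_left (by linarith)
        rw [eq_comp l5, l1, l2, l3, l4]
        simp
      obtain ⟨s, t, rfl⟩ := hp
      simp [h1]
    · -- nonpositive degree
      intro α hα y hy hom p hp
      have hsk := D.skew y hy
      have h1 : ∀ v, B f₂ v = 0 → B (y f₂) v = 0 := by
        intro v hv
        have h2 := eig P (hom_eig hom (xx_f2 P a b))
        obtain ⟨k1, k2, k3, k4, k5⟩ := h2
        have l1 := mul_zero_left k1 (by linarith)
        have l3 := mul_zero_left k3 (by linarith)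
        have l5 := (smul_eq_zero.1 k5).resolve_left (by linarith)
        have l2 : B e₁ (y f₂) = 0 := by
          by_cases hα' : -b + α + a = 0
          · have h3 : α = b - a := by linarith
            subst h3
            have h4 := hcon y hy hom
            have h5 := hsk e₁ f₂
            rw [h4] at h5
            simp at h5
            exact h5
          · exact mul_zero_left k2 hα'
        rw [eq_comp l5, l1, l2, l3]
        simp [hv]
      have h2 : ∀ v, B f₂ v = 0 → B f₂ (y v) = 0 := by
        intro v hv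
        have h3 := hsk f₂ v
        rw [h1 v hv, zero_add] at h3
        exact h3
      exact ⟨LinearMap.mem_ker.2 (h2 _ (LinearMap.mem_ker.1 hp.1)),
        LinearMap.mem_ker.2 (h2 _ (LinearMap.mem_ker.1 hp.2))⟩
  obtain ⟨y₀, hy₀, hom₀, hne⟩ := hex
  -- `y₀ e₁ = c e₂`
  obtain ⟨c, hc⟩ : ∃ c : ℝ, y₀ e₁ = c • e₂ := by
    have h2 := eig P (hom_eig hom₀ (xx_e1 P a b))
    obtain ⟨k1, k2, k3, k4, k5⟩ := h2
    have l1 := mul_zero_left k1 (by linarith)
    have l2 := mul_zero_left k2 (by linarith)
    have l4 := mul_zero_left k4 (by linarith)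
    have l5 := (smul_eq_zero.1 k5).resolve_left (by linarith)
    refine ⟨B f₂ (y₀ e₁), ?_⟩
    conv_lhs => rw [eq_comp l5, l1, l2, l4]
    simp
  have hc0 : c ≠ 0 := by
    rintro rfl
    exact hne (by rw [hc, zero_smul])
  set y : End ℝ U := c⁻¹ • y₀ with hy_def
  have hy : y ∈ h := h.smul_mem _ hy₀
  have hye : y e₁ = e₂ := by
    rw [hy_def, LinearMap.smul_apply, hc, smul_smul, inv_mul_cancel₀ hc0, one_smul]
  have hom : Hom (xx B e₁ f₁ e₂ f₂ a b) (b - a) y := by
    have h1 : xx B e₁ f₁ e₂ f₂ a b * y₀ - y₀ * xx B e₁ f₁ e₂ f₂ a b = (b - a) • y₀ := hom₀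
    show xx B e₁ f₁ e₂ f₂ a b * (c⁻¹ • y₀) - (c⁻¹ • y₀) * xx B e₁ f₁ e₂ f₂ a b =
      (b - a) • (c⁻¹ • y₀)
    rw [mul_smul_comm, smul_mul_assoc, ← smul_sub, h1, smul_comm]
  have hsk := D.skew y hy
  have hmv := fun u v => skew_mv (u := u) (v := v) hsk
  refine ⟨y e₂, ?_, ?_, ?_⟩
  · -- Perp
    obtain ⟨k1, k2, k3, k4, k5⟩ := eig P (hom_eig hom (xx_e2 P a b))
    refine ⟨?_, ?_, ?_, ?_⟩
    · rw [hmv, hye, P.p4, neg_zero]
    · exact mul_zero_left k1 (by linarith)
    · exact skew_self hs hsk e₂
    · exact mul_zero_left k3 (by linarith)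
  · by_cases h2b : a = 2 * b
    · exact Or.inr h2b
    · left
      obtain ⟨k1, k2, k3, k4, k5⟩ := eig P (hom_eig hom (xx_e2 P a b))
      have l1 := mul_zero_left k1 (by linarith)
      have l2 : B e₁ (y e₂) = 0 := by rw [hmv, hye, P.p4, neg_zero]
      have l3 := mul_zero_left k3 (by linarith)
      have l4 : B e₂ (y e₂) = 0 := skew_self hs hsk e₂
      have l5 := (smul_eq_zero.1 k5).resolve_left (by
        intro h0; apply h2b; linarith)
      rw [eq_comp l5, l1, l2, l3, l4]
      simp
  · have hPerp : Perp B e₁ f₁ e₂ f₂ (y e₂) := by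
      obtain ⟨k1, k2, k3, k4, k5⟩ := eig P (hom_eig hom (xx_e2 P a b))
      refine ⟨?_, ?_, ?_, ?_⟩
      · rw [hmv, hye, P.p4, neg_zero]
      · exact mul_zero_left k1 (by linarith)
      · exact skew_self hs hsk e₂
      · exact mul_zero_left k3 (by linarith)
    obtain ⟨z1, z2, z3, z4⟩ := perp_symm hs hPerp
    have heq : y = wedge B f₁ e₂ + wedge B f₂ (y e₂) := by
      apply ext_op P
      · rw [hye]
        simp [wedge_apply, P.p3', P.p7', P.p8', z1]
      · have : y f₁ = 0 := by
          obtain ⟨k1, k2, k3, k4, k5⟩ := eig P (hom_eig hom (xx_f1 P a b))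
          have l1 : B f₁ (y f₁) = 0 := skew_self hs hsk f₁
          have l2 : B e₁ (y f₁) = 0 := by rw [hmv, hye, P.p9', neg_zero]
          have l3 := mul_zero_left k3 (by linarith)
          have l4 : B e₂ (y f₁) = 0 := by rw [hmv, z2, neg_zero]
          have l5 := (smul_eq_zero.1 k5).resolve_left (by linarith)
          rw [eq_comp l5, l1, l2, l3, l4]
          simp
        rw [this]
        simp [wedge_apply, P.p2, P.p9', P.p10', z2]
      · simp [wedge_apply, P.p9, P.p4, P.p6', z3]
      · have : y f₂ = - f₁ := by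
          obtain ⟨k1, k2, k3, k4, k5⟩ := eig P (hom_eig hom (xx_f2 P a b))
          have l1 : B f₁ (y f₂) = 0 := mul_zero_left k1 (by linarith)
          have l2 : B e₁ (y f₂) = -1 := by rw [hmv, hye, P.p6]
          have l3 := mul_zero_left k3 (by linarith)
          have l4 : B e₂ (y f₂) = 0 := by rw [hmv, z4, neg_zero]
          have l5 := (smul_eq_zero.1 k5).resolve_left (by linarith)
          rw [eq_comp l5, l1, l2, l3, l4]
          simp
        rw [this]
        simp [wedge_apply, P.p10, P.p6, P.p5, z4]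
      · intro w hw
        obtain ⟨w1, w2, w3, w4⟩ := hw
        have : y w = -(B (y e₂) w) • f₂ := by
          obtain ⟨k1, k2, k3, k4, k5⟩ := eig P (hom_eig hom (xx_perp ⟨w1, w2, w3, w4⟩ a b))
          have l1 := mul_zero_left k1 (by linarith)
          have l2 : B e₁ (y w) = 0 := by rw [hmv, hye, w3, neg_zero]
          have l3 := mul_zero_left k3 (by linarith)
          have l4 : B e₂ (y w) = - B (y e₂) w := by rw [hmv]
          have l5 := (smul_eq_zero.1 k5).resolve_left (by linarith)
          rw [eq_comp l5, l1, l2, l3, l4]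
          simp
        rw [this]
        simp [wedge_apply, w1, w2, w3, w4]
    rw [← heq]
    exact hy

end Pool.Agent.V5helper40.DRB
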