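import Pool.Agent.W544.K3.Defs2

open Module Finset

namespace Pool.Agent.V5helper40.DRB

open Pool.Agent.W544.K3

section
variable {U : Type} [AddCommGroup U] [Module ℝ U]

theorem skew_wedge {B : U →ₗ[ℝ] U →ₗ[ℝ] ℝ} (hs : ∀ u v, B u v = B v u) (u v : U) :
    Skew B (wedge B u v) := by
  intro w w'
  simp only [wedge_apply, map_sub, map_smul, LinearMap.sub_apply, LinearMap.smul_apply,
    smul_eq_mul]
  rw [hs w v, hs w u]
  ring

/-- a skew operator commuting with all skew operators is zero -/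
theorem central_zero [FiniteDimensional ℝ U] {B : U →ₗ[ℝ] U →ₗ[ℝ] ℝ} (hB : Sig2 B)
    (hdim : 3 ≤ finrank ℝ U) (T : End ℝ U) (hT : Skew B T)
    (hc : ∀ z, Skew B z → T * z = z * T) : T = 0 := by
  obtain ⟨hs, p, q, hp, hq, hpq, hneg⟩ := hB
  have hself : ∀ v, B (T v) v = 0 := by
    intro v
    have := hT v v
    rw [hs v (T v)] at this
    linarith
  have hid : ∀ u v, B (T u) v • v - B v v • T u + B u v • T v = 0 := by
    intro u v
    have h1 := congrArg (fun F : End ℝ U => F v) (hc _ (skew_wedge hs u v))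
    simp only [Module.End.mul_apply, wedge_apply, map_sub, map_smul] at h1
    have h2 : B u (T v) = - B (T u) v := by have := hT u v; linarith
    have h3 : B v (T v) = 0 := by rw [hs, hself]
    rw [h2, h3] at h1
    rw [sub_eq_iff_eq_add] at h1
    have h4 : B u v • T v - B v v • T u - ((-B (T u) v) • v - (0 : ℝ) • u) = 0 := by
      rw [h1]; abel
    rw [← h4]
    module
  -- a vector orthogonal to `p` and `q`
  let φ : U →ₗ[ℝ] (Fin 2 → ℝ) := LinearMap.pi ![B p, B q]
  have hker : LinearMap.ker φ ≠ ⊥ := by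
    apply LinearMap.ker_ne_bot_of_finrank_lt
    rw [Module.finrank_fin_fun]
    omega
  obtain ⟨r, hr, hr0⟩ := (Submodule.ne_bot_iff _).1 hker
  have hφ : ∀ i, φ r i = 0 := fun i => by
    have := congrFun (LinearMap.mem_ker.1 hr) i
    simpa using this
  have w1 : B p r = 0 := hφ 0
  have w2 : B q r = 0 := hφ 1
  have hrr : B r r < 0 := hneg r hr0 (by rw [hs, w1]) (by rw [hs, w2])
  have hTp : T p = 0 := by
    have h1 := hid p q
    have h2 := hid p r
    rw [hpq, zero_smul, add_zero, sub_eq_zero] at h1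
    rw [w1, zero_smul, add_zero, sub_eq_zero] at h2
    -- pair `T p` with `r`
    have h3 := congrArg (B r) h1
    simp only [map_smul, smul_eq_mul] at h3
    rw [hs r q, w2, mul_zero] at h3
    have h4 : B r (T p) = 0 := by
      rcases mul_eq_zero.1 h3.symm with h | h
      · exact absurd h hq.ne'
      · exact h
    rw [hs r (T p)] at h4
    rw [h4, zero_smul] at h2
    rcases smul_eq_zero.1 h2.symm with h | h
    · exact absurd h hrr.ne
    · exact h
  ext u
  have h1 := hid u p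
  have h2 : B (T u) p = 0 := by
    have := hT u p
    rw [hTp, map_zero, add_zero] at this
    exact this
  rw [h2, hTp, zero_smul, smul_zero, add_zero, zero_sub, neg_eq_zero] at h1
  rcases smul_eq_zero.1 h1 with h | h
  · exact absurd h hp.ne'
  · simpa using h

end

theorem t_GOUR (SIMP : S_simp) (RIGID : S_rigid) : S_gour := by
  classical
  intro N U _ _ _ B hB hdim hdim4 g c hcg hsk hlie hsurj hdiag hequi i
  have hskc : ∀ y ∈ c, ∀ i, Skew (B i) (y i) := fun y hy => hsk y (hcg hy)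
  -- the kernels
  let K : Finset (Fin N) → Submodule ℝ (∀ i, End ℝ (U i)) := fun S =>
    { carrier := {y | y ∈ c ∧ ∀ j ∈ S, y j = 0}
      zero_mem' := ⟨c.zero_mem, fun j _ => rfl⟩
      add_mem' := by
        rintro a b ⟨ha, ha'⟩ ⟨hb, hb'⟩
        refine ⟨c.add_mem ha hb, fun j hj => ?_⟩
        rw [Pi.add_apply, ha' j hj, hb' j hj, add_zero]
      smul_mem' := by
        rintro r a ⟨ha, ha'⟩
        refine ⟨c.smul_mem _ ha, fun j hj => ?_⟩
        rw [Pi.smul_apply, ha' j hj, smul_zero] }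
  have hKm : ∀ S y, y ∈ K S ↔ y ∈ c ∧ ∀ j ∈ S, y j = 0 := fun S y => Iff.rfl
  -- brackets
  have hKlie : ∀ S, ∀ y ∈ g, ∀ z ∈ K S, (fun i => y i * z i - z i * y i) ∈ K S := by
    rintro S y hy z ⟨hz, hz'⟩
    refine ⟨hlie y hy z hz, fun j hj => ?_⟩
    simp only [hz' j hj, mul_zero, zero_mul, sub_self]
  -- images
  let I : Finset (Fin N) → ∀ j, Submodule ℝ (End ℝ (U j)) := fun S j =>
    (K S).map (LinearMap.proj j)
  have hIm : ∀ S j z, z ∈ I S j ↔ ∃ y ∈ K S, y j = z := fun S j z => Iff.rfl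
  have hall : ∀ S j, I S j ≠ ⊥ → ∀ z, Skew (B j) z → ∃ y ∈ K S, y j = z := by
    intro S j hne z hz
    rw [← hIm]
    refine SIMP (U j) (B j) (hB j) (hdim j) (hdim4 j) (I S j) ?_ ?_ hne z hz
    · intro y hy
      obtain ⟨y', hy', rfl⟩ := (hIm S j y).1 hy
      exact hskc y' hy'.1 j
    · intro w hw y hy
      obtain ⟨y', hy', rfl⟩ := (hIm S j y).1 hy
      obtain ⟨w', hw', hww⟩ := hsurj j w hw
      rw [hIm]
      refine ⟨_, hKlie S w' (hcg hw') y' hy', ?_⟩
      simp only [hww]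
  by_contra hcon
  -- the image of `K (univ.erase i)` is zero
  have hbot : I (univ.erase i) i = ⊥ := by
    by_contra hne
    apply hcon
    intro z hz
    obtain ⟨y, hy, hyz⟩ := hall _ i hne z hz
    exact ⟨y, hy.1, hyz, fun j hj => hy.2 j (Finset.mem_erase.2 ⟨hj, Finset.mem_univ j⟩)⟩
  have hempty : I ∅ i ≠ ⊥ := by
    intro h0
    obtain ⟨hs, p, q, hp, hq, hpq, -⟩ := hB i
    obtain ⟨y, hy, hyw⟩ := hsurj i _ (skew_wedge hs p q)
    have h1 : wedge (B i) p q ∈ I ∅ i := (hIm _ _ _).2 ⟨y, ⟨hy, fun j hj => by simp at hj⟩, hyw⟩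
    rw [h0, Submodule.mem_bot] at h1
    have h2 := congrArg (fun F : End ℝ (U i) => F p) h1
    simp only [wedge_apply, LinearMap.zero_apply] at h2
    rw [hs q p, hpq, zero_smul, sub_zero] at h2
    rcases smul_eq_zero.1 h2 with h | h
    · exact absurd h hp.ne'
    · rw [h] at hq
      simp at hq
  have hmin : ∃ (T : Finset (Fin N)) (j : Fin N), j ≠ i ∧ I T i ≠ ⊥ ∧ I (insert j T) i = ⊥ := by
    by_contra hno
    push Not at hno
    have key : ∀ S : Finset (Fin N), i ∉ S → I S i ≠ ⊥ := by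
      intro S
      induction S using Finset.induction_on with
      | empty => intro _; exact hempty
      | @insert j S hj ih =>
        intro hi
        rw [Finset.mem_insert, not_or] at hi
        exact hno S j (Ne.symm hi.1) (ih hi.2)
    exact key _ (Finset.notMem_erase i _) hbot
  obtain ⟨T, j, hji, hTi, hTj⟩ := hmin
  -- `y ∈ K T` with `y j = 0` has `y i = 0`
  have hc6 : ∀ y ∈ K T, y j = 0 → y i = 0 := by
    rintro y ⟨hy, hy'⟩ h0
    have h1 : y i ∈ I (insert j T) i := by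
      rw [hIm]
      refine ⟨y, ⟨hy, fun l hl => ?_⟩, rfl⟩
      rcases Finset.mem_insert.1 hl with rfl | hl
      · exact h0
      · exact hy' l hl
    rw [hTj, Submodule.mem_bot] at h1
    exact h1
  have hTjj : I T j ≠ ⊥ := by
    intro h0
    apply hTi
    rw [eq_bot_iff]
    intro z hz
    obtain ⟨y, hy, rfl⟩ := (hIm _ _ _).1 hz
    rw [Submodule.mem_bot]
    apply hc6 y hy
    have : y j ∈ I T j := (hIm _ _ _).2 ⟨y, hy, rfl⟩
    rw [h0, Submodule.mem_bot] at this
    exact this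
  have hc5 : ∀ y ∈ K T, y i = 0 → y j = 0 := by
    by_cases hI : I (insert i T) j = ⊥
    · rintro y ⟨hy, hy'⟩ h0
      have h1 : y j ∈ I (insert i T) j := by
        rw [hIm]
        refine ⟨y, ⟨hy, fun l hl => ?_⟩, rfl⟩
        rcases Finset.mem_insert.1 hl with rfl | hl
        · exact h0
        · exact hy' l hl
      rw [hI, Submodule.mem_bot] at h1
      exact h1
    · exfalso
      apply hTi
      rw [eq_bot_iff]
      intro w hw
      obtain ⟨y, hy, rfl⟩ := (hIm _ _ _).1 hw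
      rw [Submodule.mem_bot]
      obtain ⟨z, hz, hzy⟩ := hall _ j hI (y j) (hskc y hy.1 j)
      have hz2 : z ∈ K T := ⟨hz.1, fun l hl => hz.2 l (Finset.mem_insert_of_mem hl)⟩
      have h1 := hc6 (y - z) ((K T).sub_mem hy hz2) (by rw [Pi.sub_apply, hzy, sub_self])
      rw [Pi.sub_apply, hz.2 i (Finset.mem_insert_self i T), sub_zero] at h1
      exact h1
  have hKTg : ∀ y ∈ K T, y ∈ g := fun y hy => hcg hy.1
  -- the graph
  let R : Submodule ℝ (End ℝ (U i) × End ℝ (U j)) :=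
    (K T).map ((LinearMap.proj i : (∀ i, End ℝ (U i)) →ₗ[ℝ] End ℝ (U i)).prod
      (LinearMap.proj j : (∀ i, End ℝ (U i)) →ₗ[ℝ] End ℝ (U j)))
  have hRm : ∀ p, p ∈ R ↔ ∃ y ∈ K T, ((y i, y j) : End ℝ (U i) × End ℝ (U j)) = p :=
    fun p => Iff.rfl
  obtain ⟨Ψ, hΨ, hΨR⟩ := RIGID (U i) (U j) (B i) (B j) (hB i) (hB j) (hdim i) (hdim4 i)
    (hdim j) (hdim4 j) R
    (by
      intro p hp
      obtain ⟨y, hy, rfl⟩ := (hRm p).1 hp
      exact ⟨hskc y hy.1 i, hskc y hy.1 j⟩)
    (by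
      intro p hp q hq
      obtain ⟨y, hy, rfl⟩ := (hRm p).1 hp
      obtain ⟨z, hz, rfl⟩ := (hRm q).1 hq
      rw [hRm]
      exact ⟨_, hKlie T y (hKTg y hy) z hz, rfl⟩)
    (by
      intro z hz
      obtain ⟨y, hy, rfl⟩ := hall T i hTi z hz
      exact ⟨y j, (hRm _).2 ⟨y, hy, rfl⟩⟩)
    (by
      intro z hz
      obtain ⟨y, hy, rfl⟩ := hall T j hTjj z hz
      exact ⟨y i, (hRm _).2 ⟨y, hy, rfl⟩⟩)
    (by
      intro p hp h0
      obtain ⟨y, hy, rfl⟩ := (hRm p).1 hp
      exact hc5 y hy h0)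
    (by
      intro p hp h0
      obtain ⟨y, hy, rfl⟩ := (hRm p).1 hp
      exact hc6 y hy h0)
    (by
      intro p hp hD
      obtain ⟨y, hy, rfl⟩ := (hRm p).1 hp
      obtain ⟨x, hx, hxd⟩ := hdiag y hy.1
      have hxK : x ∈ K T := by
        refine ⟨hx, fun l hl => ?_⟩
        have hyl := hy.2 l hl
        have : Diag (y l) := by
          rw [hyl, Diag, eq_top_iff]
          intro v _
          exact Submodule.mem_iSup_of_mem 0 (End.mem_eigenspace_iff.2 (by simp))
        rw [(hxd l).2 this, hyl]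
      have h1 : x i = y i := (hxd i).2 hD
      have h2 := hc5 (x - y) ((K T).sub_mem hxK hy) (by rw [Pi.sub_apply, h1, sub_self])
      rw [Pi.sub_apply, sub_eq_zero] at h2
      show Diag (y j)
      rw [← h2]
      exact (hxd j).1)
  have hΨK : ∀ y ∈ K T, ∀ u, y j (Ψ u) = Ψ (y i u) := fun y hy u =>
    hΨR _ ((hRm _).2 ⟨y, hy, rfl⟩) u
  -- `Ψ` is equivariant for `g`
  have hΨg : ∀ z ∈ g, ∀ u, z j (Ψ u) = Ψ (z i u) := by
    intro z hz
    let Θ : End ℝ (U i) := (Ψ.symm.toLinearMap ∘ₗ (z j) ∘ₗ Ψ.toLinearMap) - z i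
    have hΘ : ∀ u, Θ u = Ψ.symm (z j (Ψ u)) - z i u := fun u => rfl
    have hΘsk : Skew (B i) Θ := by
      intro u v
      rw [hΘ, hΘ, map_sub, LinearMap.sub_apply, map_sub]
      have h1 := hsk z hz i u v
      have h2 := hsk z hz j (Ψ u) (Ψ v)
      have h3 : B i (Ψ.symm (z j (Ψ u))) v = B j (z j (Ψ u)) (Ψ v) := by
        rw [← hΨ, LinearEquiv.apply_symm_apply]
      have h4 : B i u (Ψ.symm (z j (Ψ v))) = B j (Ψ u) (z j (Ψ v)) := by
        rw [← hΨ, LinearEquiv.apply_symm_apply]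
      rw [h3, h4]
      linarith
    have hΘc : ∀ w, Skew (B i) w → Θ * w = w * Θ := by
      intro w hw
      obtain ⟨y, hy, rfl⟩ := hall T i hTi w hw
      ext u
      rw [Module.End.mul_apply, Module.End.mul_apply, hΘ, hΘ, map_sub]
      have h1 := hΨK _ (hKlie T z hz y hy) u
      simp only [LinearMap.sub_apply, Module.End.mul_apply, map_sub] at h1
      have h2 : z j (Ψ (y i u)) = z j (y j (Ψ u)) := by rw [hΨK y hy]
      have h3 : Ψ (y i (Ψ.symm (z j (Ψ u)))) = y j (z j (Ψ u)) := by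
        rw [← hΨK y hy, LinearEquiv.apply_symm_apply]
      apply Ψ.injective
      rw [map_sub, map_sub, LinearEquiv.apply_symm_apply, h3, h2]
      rw [sub_eq_sub_iff_add_eq_add] at h1 ⊢
      rw [← sub_eq_zero] at h1 ⊢
      rw [← h1]
      abel
    have h0 := central_zero (hB i) (hdim i) Θ hΘsk hΘc
    intro u
    have h1 : Θ u = 0 := by rw [h0, LinearMap.zero_apply]
    rw [hΘ, sub_eq_zero] at h1
    rw [← h1, LinearEquiv.apply_symm_apply]
  have hΨ0 := hequi i j (Ne.symm hji) Ψ.toLinearMap hΨg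
  obtain ⟨hs, p, q, hp, -⟩ := hB i
  have h1 : Ψ p = 0 := by
    have := congrArg (fun F : U i →ₗ[ℝ] U j => F p) hΨ0
    simpa using this
  have h2 : p = 0 := by simpa using h1
  rw [h2] at hp
  simp at hp

end Pool.Agent.V5helper40.DRB
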