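import Pool.Agent.V5helper40.DRB.REG

open Module Finset

namespace Pool.Agent.V5helper40.DRB

open Pool.Agent.W544.K3 Pool.Agent.V5helper5.DRB

theorem t_LOG2 (LOGQ : S_logQ) (LOGT : S_logT) : S_log2 := by
  intro n g
  obtain ⟨x, hx1, hx2, hx3⟩ := LOGQ n g
  refine ⟨x, hx1, fun k t ht => log_kills LOGT g x hx3 k t ht, ?_, hx2⟩
  intro α β u v huv hu hv
  have hpos : 0 < α ^ 2 + β ^ 2 := by
    by_contra hcon
    have h1 : α = 0 := by nlinarith [sq_nonneg α, sq_nonneg β]
    have h2 : β = 0 := by nlinarith [sq_nonneg α, sq_nonneg β]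
    rw [h1, h2] at hu hv
    simp at hu hv
    rcases huv with h | h
    · exact h hu
    · exact h hv
  set z : ℂ := ⟨α, β⟩ with hz
  set w : Fin n → ℂ := cv u + Complex.I • cv v with hw
  have hgw : cx (g : End ℝ (Fin n → ℝ)) w = z • w := by
    rw [hw, cx_add_I]
    have e1 : (g : End ℝ (Fin n → ℝ)) u = α • u - β • v := hu
    have e2 : (g : End ℝ (Fin n → ℝ)) v = β • u + α • v := hv
    have hz' : z = (α : ℂ) + Complex.I * β := by
      rw [hz]
      apply Complex.ext <;> simp
    rw [e1, e2, hz']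
    funext i
    simp only [cv, Pi.add_apply, Pi.smul_apply, Pi.sub_apply, smul_eq_mul]
    push_cast
    linear_combination (-(β : ℂ) * (v i : ℂ)) * Complex.I_mul_I
  have hmem : w ∈ End.maxGenEigenspace (cx (g : End ℝ (Fin n → ℝ))) z := by
    rw [Module.End.mem_maxGenEigenspace]
    refine ⟨1, ?_⟩
    rw [pow_one, LinearMap.sub_apply, hgw]
    simp
  have h5 := hx3 z w hmem
  have hlog : Real.log ‖z‖ = Real.log (α ^ 2 + β ^ 2) / 2 := by
    have h10 : ‖z‖ ^ 2 = α ^ 2 + β ^ 2 := by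
      rw [Complex.sq_norm, Complex.normSq_apply]
      simp [hz]
      ring
    rw [← h10, Real.log_pow]
    norm_num
  rw [hlog, hw, cx_add_I] at h5
  refine ⟨?_, ?_, hpos⟩
  · have h6 := congrArg vre h5
    rw [vre_cv] at h6
    rw [h6]
    funext i
    simp [vre, cv]
  · have h6 := congrArg vim h5
    rw [vim_cv] at h6
    rw [h6]
    funext i
    simp [vim, cv]

end Pool.Agent.V5helper40.DRB
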