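import Pool.Agent.V5helper5.DRB.LOG
import Pool.Agent.W544.K3.Defs2

open Module Finset

namespace Pool.Agent.V5helper40.DRB

open Pool.Agent.W544.K3 Pool.Agent.V5helper5.DRB

theorem log_kills (hT : S_logT) {n : ℕ} (g : (Fin n → ℝ) ≃ₗ[ℝ] (Fin n → ℝ))
    (x : End ℝ (Fin n → ℝ))
    (hx3 : ∀ z : ℂ, ∀ v ∈ End.maxGenEigenspace (cx (g : End ℝ (Fin n → ℝ))) z,
      cx x v = ((Real.log ‖z‖ : ℝ) : ℂ) • v) (k : ℕ)
    (t : MultilinearMap ℝ (fun _ : Fin k => (Fin n → ℝ)) ℝ)
    (ht : ∀ v, t (fun j => g (v j)) = t v) : Kills x t := by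
  intro v
  have hinv : ∀ w, tC t (fun j => cx (g : End ℝ (Fin n → ℝ)) (w j)) = tC t w :=
    tC_inv t (g : End ℝ (Fin n → ℝ)) ht
  have hgen : ∀ (z : Fin k → ℂ) (w : Fin k → Fin n → ℂ),
      (∀ j, w j ∈ End.maxGenEigenspace (cx (g : End ℝ (Fin n → ℝ))) (z j)) →
      DD (tC t) (cx x) w = 0 := by
    intro z w hw
    rw [DD_apply]
    have h1 : ∀ j, tC t (Function.update w j (cx x (w j))) =
        ((Real.log ‖z j‖ : ℝ) : ℂ) * tC t w := by
      intro j
      rw [hx3 (z j) (w j) (hw j), MultilinearMap.map_update_smul, Function.update_eq_self,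
        smul_eq_mul]
    rw [Finset.sum_congr rfl fun j _ => h1 j, ← Finset.sum_mul]
    by_cases hp : ∏ j, z j = 1
    · have h2 : ∑ j, Real.log ‖z j‖ = 0 := by
        rw [← Real.log_prod]
        · rw [← norm_prod, hp, norm_one, Real.log_one]
        · intro j _ h0
          have hz : z j = 0 := norm_eq_zero.1 h0
          rw [Finset.prod_eq_zero (Finset.mem_univ j) hz] at hp
          exact zero_ne_one hp
      have h3 : ∑ j, ((Real.log ‖z j‖ : ℝ) : ℂ) = 0 := by
        rw [← Complex.ofReal_sum, h2, Complex.ofReal_zero]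
      rw [h3, zero_mul]
    · rw [hT (Fin n → ℂ) (cx (g : End ℝ (Fin n → ℝ))) k (tC t) hinv z w hw hp, mul_zero]
  have hall : DD (tC t) (cx x) (fun j => cv (v j)) = 0 :=
    multi_zero (DD (tC t) (cx x))
      (fun z => End.maxGenEigenspace (cx (g : End ℝ (Fin n → ℝ))) z)
      (Module.End.iSup_maxGenEigenspace_eq_top _) hgen Finset.univ _
      (fun j hj => absurd (Finset.mem_univ j) hj)
  rw [DD_apply] at hall
  have h4 : ∀ j, tC t (Function.update (fun j => cv (v j)) j (cx x (cv (v j)))) =
      ((t (Function.update v j (x (v j))) : ℝ) : ℂ) := by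
    intro j
    rw [← tC_cv, cx_cv]
    congr 1
    funext i
    by_cases h : i = j
    · subst h; simp
    · simp [Function.update_of_ne h]
  rw [Finset.sum_congr rfl fun j _ => h4 j, ← Complex.ofReal_sum] at hall
  exact Complex.ofReal_eq_zero.1 hall

/-- real and imaginary parts of complex vectors -/
noncomputable def vre {n : ℕ} (w : Fin n → ℂ) : Fin n → ℝ := fun i => (w i).re
noncomputable def vim {n : ℕ} (w : Fin n → ℂ) : Fin n → ℝ := fun i => (w i).im

theorem cv_vre_vim {n : ℕ} (w : Fin n → ℂ) : w = cv (vre w) + Complex.I • cv (vim w) := by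
  funext i
  simp only [cv, vre, vim, Pi.add_apply, Pi.smul_apply, smul_eq_mul]
  rw [mul_comm Complex.I]
  exact (Complex.re_add_im (w i)).symm

theorem vre_cv {n : ℕ} (u v : Fin n → ℝ) : vre (cv u + Complex.I • cv v) = u := by
  funext i
  simp [cv, vre]

theorem vim_cv {n : ℕ} (u v : Fin n → ℝ) : vim (cv u + Complex.I • cv v) = v := by
  funext i
  simp [cv, vim]

/-- the complexification of a real subspace -/
noncomputable def cS {n : ℕ} (F : Submodule ℝ (Fin n → ℝ)) : Submodule ℂ (Fin n → ℂ) where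
  carrier := {w | vre w ∈ F ∧ vim w ∈ F}
  zero_mem' := by
    constructor
    · have : vre (0 : Fin n → ℂ) = 0 := by funext i; simp [vre]
      rw [this]; exact F.zero_mem
    · have : vim (0 : Fin n → ℂ) = 0 := by funext i; simp [vim]
      rw [this]; exact F.zero_mem
  add_mem' := by
    rintro a b ⟨ha, ha'⟩ ⟨hb, hb'⟩
    constructor
    · have : vre (a + b) = vre a + vre b := by funext i; simp [vre]
      rw [this]; exact F.add_mem ha hb
    · have : vim (a + b) = vim a + vim b := by funext i; simp [vim]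
      rw [this]; exact F.add_mem ha' hb'
  smul_mem' := by
    rintro c a ⟨ha, ha'⟩
    constructor
    · have : vre (c • a) = c.re • vre a - c.im • vim a := by funext i; simp [vre, vim]
      rw [this]; exact F.sub_mem (F.smul_mem _ ha) (F.smul_mem _ ha')
    · have : vim (c • a) = c.re • vim a + c.im • vre a := by funext i; simp [vre, vim]
      rw [this]; exact F.add_mem (F.smul_mem _ ha') (F.smul_mem _ ha)

/-- eigenvectors of the complexification -/
theorem eig_parts {n : ℕ} (g : End ℝ (Fin n → ℝ)) {w : Fin n → ℂ} {z : ℂ} (h : cx g w = z • w) :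
    g (vre w) = z.re • vre w - z.im • vim w ∧ g (vim w) = z.im • vre w + z.re • vim w := by
  rw [cv_vre_vim w, cx_add_I] at h
  constructor
  · have h1 := congrArg vre h
    rw [vre_cv] at h1
    rw [h1]
    funext i
    simp [vre, vim, cv]
  · have h1 := congrArg vim h
    rw [vim_cv] at h1
    rw [h1]
    funext i
    simp [vre, vim, cv]
    ring

theorem cx_mem_cS {n : ℕ} (g : End ℝ (Fin n → ℝ)) (F : Submodule ℝ (Fin n → ℝ))
    (hF : ∀ v ∈ F, g v ∈ F) : ∀ w ∈ cS F, cx g w ∈ cS F := by
  rintro w ⟨h1, h2⟩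
  rw [cv_vre_vim w, cx_add_I]
  refine ⟨?_, ?_⟩
  · rw [vre_cv]; exact hF _ h1
  · rw [vim_cv]; exact hF _ h2

theorem exists_eig {W : Type} [AddCommGroup W] [Module ℂ W] (f : End ℂ W) (N : Submodule ℂ W)
    (hst : ∀ w ∈ N, f w ∈ N) (z : ℂ) : ∀ (k : ℕ) (w : W), w ∈ N → w ≠ 0 →
    ((f - z • (1 : End ℂ W)) ^ k) w = 0 → ∃ w' ∈ N, w' ≠ 0 ∧ f w' = z • w' := by
  intro k
  induction k with
  | zero =>
    intro w _ hw0 hk
    rw [pow_zero, Module.End.one_apply] at hk
    exact absurd hk hw0
  | succ k ih =>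
    intro w hwF hw0 hk
    have e : (f - z • (1 : End ℂ W)) w = f w - z • w := by
      rw [LinearMap.sub_apply, LinearMap.smul_apply, Module.End.one_apply]
    by_cases h0 : (f - z • (1 : End ℂ W)) w = 0
    · refine ⟨w, hwF, hw0, ?_⟩
      rw [e] at h0
      exact sub_eq_zero.1 h0
    · refine ih ((f - z • (1 : End ℂ W)) w) ?_ h0 ?_
      · rw [e]
        exact N.sub_mem (hst w hwF) (N.smul_mem _ hwF)
      · rw [pow_succ, Module.End.mul_apply] at hk
        exact hk

theorem t_REG (EXP : S_exp) (LOGQ : S_logQ) (LOGT : S_logT) : S_reG := by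
  intro n y
  obtain ⟨E, hE0, hinv, hder, hstab, hkill⟩ := EXP n y
  have hinv1 := hinv 1
  have hinv2 := hinv (-1)
  rw [neg_neg] at hinv2
  let g : (Fin n → ℝ) ≃ₗ[ℝ] (Fin n → ℝ) := LinearEquiv.ofLinearMap (E 1) (E (-1))
    (by exact hinv1) (by exact hinv2)
  have hg : ∀ v, g v = E 1 v := fun v => rfl
  have hg' : (g : End ℝ (Fin n → ℝ)) = E 1 := rfl
  obtain ⟨x, hx1, hx2, hx3⟩ := LOGQ n g
  refine ⟨x, hx1, fun k t ht => log_kills LOGT g x hx3 k t (fun v => hkill k t ht 1 v),
    fun M hM => hx2 M (fun v hv => hstab M hM 1 v hv), ?_⟩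
  intro F α P hF hPs hPpos hPy
  -- `g` multiplies the norm by `exp α`
  have hiso : ∀ u ∈ F, P (g u) (g u) = Real.exp (2 * α) * P u u := by
    intro u hu
    let PC : (Fin n → ℝ) →L[ℝ] (Fin n → ℝ) →L[ℝ] ℝ :=
      LinearMap.toContinuousLinearMap
        ((LinearMap.toContinuousLinearMap : ((Fin n → ℝ) →ₗ[ℝ] ℝ) ≃ₗ[ℝ] _).toLinearMap ∘ₗ P)
    have hPC : ∀ a b, PC a b = P a b := fun a b => rfl
    have hd : ∀ s, HasDerivAt (fun s => Real.exp (-(2 * α) * s) * P (E s u) (E s u)) 0 s := by
      intro s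
      have h1 : HasDerivAt (fun s => PC (E s u) (E s u))
          (PC (E s u) (y (E s u)) + PC (y (E s u)) (E s u)) s := by
        have := (PC.hasFDerivAt.comp_hasDerivAt s (hder s u)).clm_apply (hder s u)
        simpa [add_comm] using this
      have h2 : HasDerivAt (fun s => Real.exp (-(2 * α) * s)) (Real.exp (-(2 * α) * s) *
          (-(2 * α))) s := by
        have := ((hasDerivAt_id s).const_mul (-(2 * α))).exp
        simpa using this
      have h3 := h2.mul h1
      have hEs : E s u ∈ F := hstab F hF s u hu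
      have h4 := hPy _ hEs _ hEs
      have h5 : Real.exp (-(2 * α) * s) * (-(2 * α)) * PC (E s u) (E s u) +
          Real.exp (-(2 * α) * s) * (PC (E s u) (y (E s u)) + PC (y (E s u)) (E s u)) = 0 := by
        simp only [hPC]
        linear_combination Real.exp (-(2 * α) * s) * h4
      rw [h5] at h3
      exact h3
    have hconst := is_const_of_deriv_eq_zero
      (f := fun s => Real.exp (-(2 * α) * s) * P (E s u) (E s u))
      (fun s => (hd s).differentiableAt) (fun s => (hd s).deriv) 1 0
    simp only [mul_one, mul_zero, Real.exp_zero, one_mul, hE0, Module.End.one_apply] at hconst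
    rw [hg, ← hconst, ← mul_assoc, ← Real.exp_add]
    simp
  -- the complexification of `F`
  have hall : ∀ w ∈ cS F, cx x w = (α : ℂ) • w := by
    have hst := cx_mem_cS (g : End ℝ (Fin n → ℝ)) F (fun v hv => hstab F hF 1 v hv)
    have htop : ⨆ z, (cx (g : End ℝ (Fin n → ℝ))).maxGenEigenspace z = ⊤ :=
      Module.End.iSup_maxGenEigenspace_eq_top _
    have hdec := Submodule.eq_iSup_inf_genEigenspace ⊤ hst htop
    -- eigenvalues of eigenvectors in `F`
    have heig : ∀ (z : ℂ) (w : Fin n → ℂ), w ∈ cS F → w ≠ 0 →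
        cx (g : End ℝ (Fin n → ℝ)) w = z • w → Real.log ‖z‖ = α := by
      intro z w hw hw0 hgw
      obtain ⟨h1, h2⟩ := eig_parts _ hgw
      obtain ⟨hu, hv⟩ := hw
      set u := vre w with hu'
      set v := vim w with hv'
      have h3 := hiso u hu
      have h4 := hiso v hv
      have h1' : g u = z.re • u - z.im • v := h1
      have h2' : g v = z.im • u + z.re • v := h2
      rw [h1'] at h3
      rw [h2'] at h4
      simp only [map_add, map_sub, map_smul, LinearMap.add_apply, LinearMap.sub_apply,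
        LinearMap.smul_apply, smul_eq_mul] at h3 h4
      have h5 : (z.re ^ 2 + z.im ^ 2) * (P u u + P v v) = Real.exp (2 * α) * (P u u + P v v) := by
        rw [hPs v u] at h3 h4
        linear_combination h3 + h4
      have h6 : 0 < P u u + P v v := by
        have hor : u ≠ 0 ∨ v ≠ 0 := by
          by_contra hcon
          push Not at hcon
          apply hw0
          rw [cv_vre_vim w, ← hu', ← hv', hcon.1, hcon.2]
          funext i
          simp [cv]
        have hnn : ∀ a ∈ F, 0 ≤ P a a := by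
          intro a ha
          by_cases h0 : a = 0
          · rw [h0]; simp
          · exact (hPpos a ha h0).le
        rcases hor with h | h
        · exact add_pos_of_pos_of_nonneg (hPpos u hu h) (hnn v hv)
        · exact add_pos_of_nonneg_of_pos (hnn u hu) (hPpos v hv h)
      have h7 : z.re ^ 2 + z.im ^ 2 = Real.exp (2 * α) := mul_right_cancel₀ h6.ne' h5
      have h8 : ‖z‖ ^ 2 = Real.exp α ^ 2 := by
        rw [Complex.sq_norm, Complex.normSq_apply, ← Real.exp_nat_mul]
        rw [show ((2 : ℕ) : ℝ) * α = 2 * α by norm_num, ← h7]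
        ring
      have h9 : ‖z‖ = Real.exp α := by
        have := (sq_eq_sq₀ (norm_nonneg z) (Real.exp_pos α).le).1 h8
        exact this
      rw [h9, Real.log_exp]
    intro w hw
    rw [hdec] at hw
    refine Submodule.iSup_induction _ (motive := fun w => cx x w = (α : ℂ) • w) hw ?_ ?_ ?_
    · rintro z w ⟨hwF, hwz⟩
      have h1 := hx3 z w hwz
      by_cases hw0 : w = 0
      · rw [hw0]; simp
      -- an eigenvector in `F`
      have h2 : ∃ w' ∈ cS F, w' ≠ 0 ∧ cx (g : End ℝ (Fin n → ℝ)) w' = z • w' := by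
        obtain ⟨k, hk⟩ := (Module.End.mem_maxGenEigenspace _ _ _).1 hwz
        exact exists_eig _ (cS F) hst z k w hwF hw0 hk
      obtain ⟨w', hw'F, hw'0, hw'⟩ := h2
      rw [h1, heig z w' hw'F hw'0 hw']
    · simp
    · intro a b ha hb
      rw [map_add, ha, hb, smul_add]
  intro v hv
  have h1 : cv v ∈ cS F := by
    have h2 : vre (cv v) = v := by funext i; simp [cv, vre]
    have h3 : vim (cv v) = 0 := by funext i; simp [cv, vim]
    exact ⟨by rw [h2]; exact hv, by rw [h3]; exact F.zero_mem⟩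
  have h2 := hall _ h1
  rw [cx_cv] at h2
  funext i
  have h3 := congrFun h2 i
  simp only [cv, Pi.smul_apply, smul_eq_mul] at h3
  have h4 := congrArg Complex.re h3
  simpa using h4

end Pool.Agent.V5helper40.DRB
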