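import Pool.Agent.W544.K3.Defs

open Module Finset

namespace Pool.Agent.V5helper40.DRB

open Pool.Agent.W544.K3

set_option linter.unusedSimpArgs false

variable {U : Type} [AddCommGroup U] [Module ℝ U]

/-- all pairings of the four vectors and a vector orthogonal to them -/
theorem hyp2_swap {B : U →ₗ[ℝ] U →ₗ[ℝ] ℝ} {e₁ f₁ e₂ f₂ : U} (H : Hyp2 B e₁ f₁ e₂ f₂) :
    Hyp2 B f₁ e₁ f₂ e₂ := by
  obtain ⟨hs, ⟨h1, h2, h3⟩, ⟨h4, h5, h6⟩, h7, h8, h9, h10, h11⟩ := H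
  refine ⟨hs, ⟨h2, h1, by rw [hs, h3]⟩, ⟨h5, h4, by rw [hs, h6]⟩, h10, h9, h8, h7, ?_⟩
  intro v hv a b c d
  exact h11 v hv b a d c

theorem wedge_anti (B : U →ₗ[ℝ] U →ₗ[ℝ] ℝ) (u v : U) : wedge B u v = - wedge B v u := by
  ext w
  simp [wedge_apply]

/-- The condition that all diagonal elements of `h` are proportional to `(a, b)`. -/
def Star (a b : ℝ) (h : Submodule ℝ (End ℝ U)) (e₁ f₁ e₂ f₂ : U) : Prop :=
  ∀ y ∈ h, ∀ α β : ℝ, y e₁ = α • e₁ → y f₁ = -(α • f₁) → y e₂ = β • e₂ → y f₂ = -(β • f₂) →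
    α * b = β * a

theorem star_swap {a b : ℝ} {h : Submodule ℝ (End ℝ U)} {e₁ f₁ e₂ f₂ : U}
    (H : Star a b h e₁ f₁ e₂ f₂) : Star a b h f₁ e₁ f₂ e₂ := by
  intro y hy α β h1 h2 h3 h4
  have := H y hy (-α) (-β) (by rw [h2, neg_smul]) (by rw [h1, neg_smul, neg_neg])
    (by rw [h4, neg_smul]) (by rw [h3, neg_smul, neg_neg])
  linarith

/-- commutator of `κ f₁ ∧ e₂ + f₂ ∧ z` and `e₁ ∧ f₂ + e₂ ∧ z'`. -/
theorem star_comm {B : U →ₗ[ℝ] U →ₗ[ℝ] ℝ} {h : Submodule ℝ (End ℝ U)} {a b : ℝ}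
    {e₁ f₁ e₂ f₂ : U} (hlie : ∀ x ∈ h, ∀ y ∈ h, x * y - y * x ∈ h)
    (H : Hyp2 B e₁ f₁ e₂ f₂) (S : Star a b h e₁ f₁ e₂ f₂) {z z' : U}
    (hz : Perp B e₁ f₁ e₂ f₂ z) (hz' : Perp B e₁ f₁ e₂ f₂ z') (κ κ' : ℝ)
    (h1 : κ • wedge B f₁ e₂ + wedge B f₂ z ∈ h)
    (h2 : κ' • wedge B e₁ f₂ + wedge B e₂ z' ∈ h) :
    κ * κ' * b = (B z z' - κ * κ') * a := by
  obtain ⟨hs, ⟨p1, p2, p3⟩, ⟨p4, p5, p6⟩, p7, p8, p9, p10, -⟩ := H
  obtain ⟨q1, q2, q3, q4⟩ := hz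
  obtain ⟨r1, r2, r3, r4⟩ := hz'
  have p3' : B f₁ e₁ = 1 := by rw [hs, p3]
  have p6' : B f₂ e₂ = 1 := by rw [hs, p6]
  have p7' : B e₂ e₁ = 0 := by rw [hs, p7]
  have p8' : B f₂ e₁ = 0 := by rw [hs, p8]
  have p9' : B e₂ f₁ = 0 := by rw [hs, p9]
  have p10' : B f₂ f₁ = 0 := by rw [hs, p10]
  have q1' : B z e₁ = 0 := by rw [hs, q1]
  have q2' : B z f₁ = 0 := by rw [hs, q2]
  have q3' : B z e₂ = 0 := by rw [hs, q3]
  have q4' : B z f₂ = 0 := by rw [hs, q4]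
  have r1' : B z' e₁ = 0 := by rw [hs, r1]
  have r2' : B z' f₁ = 0 := by rw [hs, r2]
  have r3' : B z' e₂ = 0 := by rw [hs, r3]
  have r4' : B z' f₂ = 0 := by rw [hs, r4]
  have hc := hlie _ h1 _ h2
  have hzz : B z' z = B z z' := hs _ _
  refine S _ hc (κ * κ') (B z z' - κ * κ') ?_ ?_ ?_ ?_
  all_goals
    simp only [LinearMap.sub_apply, Module.End.mul_apply, LinearMap.add_apply,
      LinearMap.smul_apply, wedge_apply, p1, p2, p3, p4, p5, p6, p7, p8, p9, p10, q1, q2, q3, q4,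
      r1, r2, r3, r4, p3', p6', p7', p8', p9', p10', q1', q2', q3', q4', r1', r2', r3', r4',
      zero_smul, one_smul, smul_zero, sub_zero, zero_sub, add_zero, zero_add, map_add, map_sub,
      map_neg, map_smul, map_zero, smul_eq_mul, mul_zero, mul_one, neg_zero, hzz]
    try module

theorem lemA (NEM : S_neM) [FiniteDimensional ℝ U] {B : U →ₗ[ℝ] U →ₗ[ℝ] ℝ}
    {h n : Submodule ℝ (End ℝ U)} (D : Dat B h n) {e₁ f₁ e₂ f₂ : U}
    (H : Hyp2 B e₁ f₁ e₂ f₂) {b : ℝ} (hb : 0 < b) (S : Star (2 * b) b h e₁ f₁ e₂ f₂)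
    (hx : (2 * b) • wedge B f₁ e₁ + b • wedge B f₂ e₂ ∈ n) {z₂ : U}
    (hz₂ : Perp B e₁ f₁ e₂ f₂ z₂) (hy₂ : wedge B e₁ f₂ + wedge B e₂ z₂ ∈ h) :
    ∀ z₃, Perp B e₁ f₁ e₂ f₂ z₃ → B z₃ z₂ = 0 → wedge B f₂ z₃ ∈ h := by
  have hM := NEM U B h n D e₁ f₁ e₂ f₂ H b hb hx ?_
  · intro z₃ hz₃ h32
    obtain ⟨κ, hκ⟩ := hM z₃ hz₃
    have h1 := star_comm D.lie H S hz₃ hz₂ κ 1 hκ (by rwa [one_smul])
    rw [h32] at h1
    have h2 : κ = 0 := by
      have h3 : κ * (3 * b) = 0 := by linarith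
      rcases mul_eq_zero.1 h3 with h4 | h4
      · exact h4
      · linarith
    rw [h2, zero_smul, zero_add] at hκ
    exact hκ
  · intro w hw hv
    refine ⟨- B w z₂, ?_⟩
    have hc := D.lie _ hy₂ _ hv
    convert hc using 1
    obtain ⟨hs, ⟨p1, p2, p3⟩, ⟨p4, p5, p6⟩, p7, p8, p9, p10, -⟩ := H
    obtain ⟨q1, q2, q3, q4⟩ := hw
    obtain ⟨r1, r2, r3, r4⟩ := hz₂
    have p3' : B f₁ e₁ = 1 := by rw [hs, p3]
    have p6' : B f₂ e₂ = 1 := by rw [hs, p6]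
    have p7' : B e₂ e₁ = 0 := by rw [hs, p7]
    have p8' : B f₂ e₁ = 0 := by rw [hs, p8]
    have p9' : B e₂ f₁ = 0 := by rw [hs, p9]
    have p10' : B f₂ f₁ = 0 := by rw [hs, p10]
    have q1' : B w e₁ = 0 := by rw [hs, q1]
    have q2' : B w f₁ = 0 := by rw [hs, q2]
    have q3' : B w e₂ = 0 := by rw [hs, q3]
    have q4' : B w f₂ = 0 := by rw [hs, q4]
    have r1' : B z₂ e₁ = 0 := by rw [hs, r1]
    have r2' : B z₂ f₁ = 0 := by rw [hs, r2]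
    have r3' : B z₂ e₂ = 0 := by rw [hs, r3]
    have r4' : B z₂ f₂ = 0 := by rw [hs, r4]
    have hzz : B z₂ w = B w z₂ := hs _ _
    ext v
    simp only [LinearMap.sub_apply, Module.End.mul_apply, LinearMap.add_apply,
      LinearMap.smul_apply, wedge_apply, p1, p2, p3, p4, p5, p6, p7, p8, p9, p10, q1, q2, q3, q4,
      r1, r2, r3, r4, p3', p6', p7', p8', p9', p10', q1', q2', q3', q4', r1', r2', r3', r4',
      zero_smul, one_smul, smul_zero, sub_zero, zero_sub, add_zero, zero_add, map_add, map_sub,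
      map_neg, map_smul, map_zero, smul_eq_mul, mul_zero, mul_one, neg_zero, hzz]
    module

theorem t_NE (REH : S_reH) (NEY : S_neY) (NEM : S_neM) : S_ne := by
  intro U _ _ _ B h n D hdim e₁ f₁ e₂ f₂ H a b hb hab hx
  by_contra hcon
  have hsym : ∀ u v, B u v = B v u := H.1
  have ha : 0 < a := by linarith
  -- all diagonal elements are proportional to `(a, b)`
  have S : Star a b h e₁ f₁ e₂ f₂ := by
    intro y hy α β h1 h2 h3 h4
    by_contra hne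
    have h5 := REH U B h n D e₁ f₁ e₂ f₂ H y hy α β h1 h2 h3 h4
    apply hcon
    refine ⟨e₁, f₁, H.2.1, ?_⟩
    have h6 : b • (α • wedge B f₁ e₁ + β • wedge B f₂ e₂) -
        β • (a • wedge B f₁ e₁ + b • wedge B f₂ e₂) ∈ n :=
      n.sub_mem (n.smul_mem _ h5) (n.smul_mem _ hx)
    have h7 : (α * b - β * a) • wedge B f₁ e₁ ∈ n := by
      convert h6 using 1
      module
    have h8 : α * b - β * a ≠ 0 := sub_ne_zero.2 hne
    exact (n.smul_mem_iff h8).1 h7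
  have S' := star_swap S
  have H' := hyp2_swap H
  obtain ⟨z, hz, hz0, hy⟩ := NEY U B h n D e₁ f₁ e₂ f₂ H a b hb hab hx
  have hx' : a • wedge B e₁ f₁ + b • wedge B e₂ f₂ ∈ n := by
    have := n.neg_mem hx
    convert this using 1
    rw [wedge_anti B e₁ f₁, wedge_anti B e₂ f₂]
    module
  obtain ⟨z₂, hz₂', hz₂0, hy₂⟩ := NEY U B h n D f₁ e₁ f₂ e₂ H' a b hb hab hx'
  have hz₂ : Perp B e₁ f₁ e₂ f₂ z₂ := ⟨hz₂'.2.1, hz₂'.1, hz₂'.2.2.2, hz₂'.2.2.1⟩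
  have hz' : Perp B f₁ e₁ f₂ e₂ z := ⟨hz.2.1, hz.1, hz.2.2.2, hz.2.2.1⟩
  have h1 := star_comm D.lie H S hz hz₂ 1 1 (by rwa [one_smul]) (by rwa [one_smul])
  have hzne : z ≠ 0 := by
    rintro rfl
    simp at h1
    linarith
  have h2b : a = 2 * b := by
    rcases hz0 with h | h
    · exact absurd h hzne
    · exact h
  subst h2b
  have hBz : B z z₂ ≠ 0 := by
    intro h0
    rw [h0] at h1
    linarith
  have hneg := H.2.2.2.2.2.2.2
  have hA := lemA NEM D H hb S hx hz₂ hy₂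
  have hA' := lemA NEM D H' hb S' hx' hz' hy
  -- final commutator
  have hfin : ∀ z₃ z₄, Perp B e₁ f₁ e₂ f₂ z₃ → Perp B e₁ f₁ e₂ f₂ z₄ → B z₃ z₂ = 0 →
      B z₄ z = 0 → B z₃ z₄ = 0 := by
    intro z₃ z₄ h3 h4 h5 h6
    have h7 := hA z₃ h3 h5
    have h8 := hA' z₄ ⟨h4.2.1, h4.1, h4.2.2.2, h4.2.2.1⟩ h6
    have h9 := star_comm D.lie H S h3 h4 0 0 (by rwa [zero_smul, zero_add])
      (by rwa [zero_smul, zero_add])
    have h10 : B z₃ z₄ * (2 * b) = 0 := by linarith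
    rcases mul_eq_zero.1 h10 with h | h
    · exact h
    · linarith
  obtain ⟨q1, q2, q3, q4⟩ := hz
  obtain ⟨-, ⟨p1, p2, p3⟩, ⟨p4, p5, p6⟩, p7, p8, p9, p10, -⟩ := H
  have hzz : B z z < 0 := hneg z hzne q1 q2 q3 q4
  have p3' : B f₁ e₁ = 1 := by rw [hsym, p3]
  have p6' : B f₂ e₂ = 1 := by rw [hsym, p6]
  have p7' : B e₂ e₁ = 0 := by rw [hsym, p7]
  have p8' : B f₂ e₁ = 0 := by rw [hsym, p8]
  have p9' : B e₂ f₁ = 0 := by rw [hsym, p9]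
  have p10' : B f₂ f₁ = 0 := by rw [hsym, p10]
  have q1' : B z e₁ = 0 := by rw [hsym, q1]
  have q2' : B z f₁ = 0 := by rw [hsym, q2]
  have q3' : B z e₂ = 0 := by rw [hsym, q3]
  have q4' : B z f₂ = 0 := by rw [hsym, q4]
  have hLI : LinearIndependent ℝ ![e₁, f₁, e₂, f₂, z] := by
    rw [Fintype.linearIndependent_iff]
    intro g hg
    rw [Fin.sum_univ_five] at hg
    simp only [Matrix.cons_val_zero, Matrix.cons_val_one, Matrix.cons_val] at hg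
    have k1 := congrArg (B f₁) hg
    have k2 := congrArg (B e₁) hg
    have k3 := congrArg (B f₂) hg
    have k4 := congrArg (B e₂) hg
    have k5 := congrArg (B z) hg
    simp only [map_add, map_smul, smul_eq_mul, map_zero, p1, p2, p3, p4, p5, p6, p7, p8, p9, p10,
      p3', p6', p7', p8', p9', p10', q1, q2, q3, q4, q1', q2', q3', q4', mul_zero, mul_one,
      add_zero, zero_add] at k1 k2 k3 k4 k5
    have k6 : g 4 = 0 := by
      rcases mul_eq_zero.1 k5 with h | h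
      · exact h
      · linarith
    intro i
    fin_cases i
    · exact k1
    · exact k2
    · exact k3
    · exact k4
    · exact k6
  have h5 : 5 ≤ finrank ℝ U := by
    have := hLI.fintype_card_le_finrank
    simpa using this
  have h6 : 5 < finrank ℝ U := lt_of_le_of_ne h5 (Ne.symm hdim)
  let φ : U →ₗ[ℝ] (Fin 5 → ℝ) := LinearMap.pi ![B e₁, B f₁, B e₂, B f₂, B z]
  have hker : LinearMap.ker φ ≠ ⊥ := by
    apply LinearMap.ker_ne_bot_of_finrank_lt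
    rw [Module.finrank_fin_fun]
    exact h6
  obtain ⟨z₄, hz₄, hz₄0⟩ := (Submodule.ne_bot_iff _).1 hker
  have hφ : ∀ i, φ z₄ i = 0 := fun i => by
    have := congrFun (LinearMap.mem_ker.1 hz₄) i
    simpa using this
  have w1 : B e₁ z₄ = 0 := hφ 0
  have w2 : B f₁ z₄ = 0 := hφ 1
  have w3 : B e₂ z₄ = 0 := hφ 2
  have w4 : B f₂ z₄ = 0 := hφ 3
  have w5 : B z z₄ = 0 := hφ 4
  have hP4 : Perp B e₁ f₁ e₂ f₂ z₄ := ⟨w1, w2, w3, w4⟩
  obtain ⟨r1, r2, r3, r4⟩ := hz₂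
  have hz₂ne : z₂ ≠ 0 := by
    rintro rfl
    simp at hBz
  have h22 : B z₂ z₂ < 0 := hneg z₂ hz₂ne r1 r2 r3 r4
  set c : ℝ := B z₄ z₂ / B z₂ z₂ with hc
  have hcmul : c * B z₂ z₂ = B z₄ z₂ := by
    rw [hc, div_mul_cancel₀ _ h22.ne]
  set z₃ : U := z₄ - c • z₂ with hz₃
  have hP3 : Perp B e₁ f₁ e₂ f₂ z₃ := by
    refine ⟨?_, ?_, ?_, ?_⟩ <;> simp [hz₃, w1, w2, w3, w4, r1, r2, r3, r4]
  have h32 : B z₃ z₂ = 0 := by
    rw [hz₃]
    simp only [map_sub, map_smul, LinearMap.sub_apply, LinearMap.smul_apply, smul_eq_mul]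
    linarith
  have h34 := hfin z₃ z₄ hP3 hP4 h32 (by rw [hsym, w5])
  have h33 : B z₃ z₃ = 0 := by
    have e1 : B z₃ z₃ = B z₃ (z₄ - c • z₂) := by rw [← hz₃]
    rw [e1, map_sub, map_smul, h34, h32]
    simp
  have hz₃0 : z₃ = 0 := by
    by_contra hne
    have := hneg z₃ hne hP3.1 hP3.2.1 hP3.2.2.1 hP3.2.2.2
    linarith
  have h4c : z₄ = c • z₂ := sub_eq_zero.1 hz₃0
  have hc0 : c ≠ 0 := by
    rintro h
    rw [h, zero_smul] at h4c
    exact hz₄0 h4c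
  apply hBz
  rw [h4c] at w5
  simp only [map_smul, smul_eq_mul] at w5
  rcases mul_eq_zero.1 w5 with h | h
  · exact absurd h hc0
  · exact h

end Pool.Agent.V5helper40.DRB
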