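import Pool.Agent.W544.K3.Defs

/-!
Two orthogonal hyperbolic pairs with their weights.
-/

open Module Finset

namespace Pool.Agent.V5helper40.DRB

open Pool.Agent.W544.K3

set_option linter.unusedSimpArgs false
set_option linter.unusedSectionVars false

variable {U : Type} [AddCommGroup U] [Module ℝ U]

/-- the operator with weights `a` on `e₁`, `b` on `e₂`. -/
noncomputable def xx (B : U →ₗ[ℝ] U →ₗ[ℝ] ℝ) (e₁ f₁ e₂ f₂ : U) (a b : ℝ) : End ℝ U :=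
  a • wedge B f₁ e₁ + b • wedge B f₂ e₂

/-- projection to the orthogonal complement of the four vectors -/
noncomputable def pr (B : U →ₗ[ℝ] U →ₗ[ℝ] ℝ) (e₁ f₁ e₂ f₂ : U) : End ℝ U :=
  LinearMap.id - ((B f₁).smulRight e₁ + (B e₁).smulRight f₁ + (B f₂).smulRight e₂ +
    (B e₂).smulRight f₂)

theorem pr_apply (B : U →ₗ[ℝ] U →ₗ[ℝ] ℝ) (e₁ f₁ e₂ f₂ v : U) :
    pr B e₁ f₁ e₂ f₂ v = v - (B f₁ v • e₁ + B e₁ v • f₁ + B f₂ v • e₂ + B e₂ v • f₂) := by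
  simp [pr]

theorem decomp (B : U →ₗ[ℝ] U →ₗ[ℝ] ℝ) (e₁ f₁ e₂ f₂ v : U) :
    v = (B f₁ v • e₁ + B e₁ v • f₁ + B f₂ v • e₂ + B e₂ v • f₂) + pr B e₁ f₁ e₂ f₂ v := by
  rw [pr_apply]; abel

theorem xx_apply (B : U →ₗ[ℝ] U →ₗ[ℝ] ℝ) (e₁ f₁ e₂ f₂ : U) (a b : ℝ) (v : U) :
    xx B e₁ f₁ e₂ f₂ a b v = (a * B f₁ v) • e₁ - (a * B e₁ v) • f₁ + (b * B f₂ v) • e₂ -
      (b * B e₂ v) • f₂ := by
  simp only [xx, LinearMap.add_apply, LinearMap.smul_apply, wedge_apply]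
  module

theorem lie_wedge {B : U →ₗ[ℝ] U →ₗ[ℝ] ℝ} {y : End ℝ U}
    (hy : Skew B y) (u v : U) :
    y * wedge B u v - wedge B u v * y = wedge B (y u) v + wedge B u (y v) := by
  ext w
  have h1 : B (y u) w = - B u (y w) := by have := hy u w; linarith
  have h2 : B (y v) w = - B v (y w) := by have := hy v w; linarith
  simp only [LinearMap.sub_apply, Module.End.mul_apply, LinearMap.add_apply, wedge_apply, map_sub,
    map_smul, h1, h2]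
  module

theorem hom_eig {x y : End ℝ U} {α μ : ℝ} {v : U} (h : Hom x α y) (hv : x v = μ • v) :
    x (y v) = (μ + α) • y v := by
  have h1 := congrArg (fun z : End ℝ U => z v) h
  simp only [LinearMap.sub_apply, Module.End.mul_apply, LinearMap.smul_apply, hv, map_smul] at h1
  rw [add_smul, ← h1]
  abel

section
variable {B : U →ₗ[ℝ] U →ₗ[ℝ] ℝ} {e₁ f₁ e₂ f₂ : U}

theorem skew_self (hs : ∀ u v, B u v = B v u) {y : End ℝ U} (hy : Skew B y) (u : U) :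
    B u (y u) = 0 := by
  have := hy u u
  rw [hs (y u) u] at this
  linarith

theorem skew_mv {y : End ℝ U} (hy : Skew B y) (u v : U) : B u (y v) = - B (y u) v := by
  have := hy u v
  linarith

/-- All pairings. -/
structure Pair (B : U →ₗ[ℝ] U →ₗ[ℝ] ℝ) (e₁ f₁ e₂ f₂ : U) : Prop where
  hs : ∀ u v, B u v = B v u
  p1 : B e₁ e₁ = 0
  p2 : B f₁ f₁ = 0
  p3 : B e₁ f₁ = 1
  p4 : B e₂ e₂ = 0
  p5 : B f₂ f₂ = 0
  p6 : B e₂ f₂ = 1
  p7 : B e₁ e₂ = 0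
  p8 : B e₁ f₂ = 0
  p9 : B f₁ e₂ = 0
  p10 : B f₁ f₂ = 0
  p3' : B f₁ e₁ = 1
  p6' : B f₂ e₂ = 1
  p7' : B e₂ e₁ = 0
  p8' : B f₂ e₁ = 0
  p9' : B e₂ f₁ = 0
  p10' : B f₂ f₁ = 0

theorem pair_of (H : Hyp2 B e₁ f₁ e₂ f₂) : Pair B e₁ f₁ e₂ f₂ := by
  obtain ⟨hs, ⟨p1, p2, p3⟩, ⟨p4, p5, p6⟩, p7, p8, p9, p10, -⟩ := H
  exact ⟨hs, p1, p2, p3, p4, p5, p6, p7, p8, p9, p10, by rw [hs, p3], by rw [hs, p6],
    by rw [hs, p7], by rw [hs, p8], by rw [hs, p9], by rw [hs, p10]⟩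

theorem perp_pr (H : Pair B e₁ f₁ e₂ f₂) (v : U) : Perp B e₁ f₁ e₂ f₂ (pr B e₁ f₁ e₂ f₂ v) := by
  obtain ⟨hs, p1, p2, p3, p4, p5, p6, p7, p8, p9, p10, p3', p6', p7', p8', p9', p10'⟩ := H
  refine ⟨?_, ?_, ?_, ?_⟩ <;>
  simp only [pr_apply, map_sub, map_add, map_smul, smul_eq_mul, p1, p2, p3, p4, p5, p6, p7, p8,
    p9, p10, p3', p6', p7', p8', p9', p10'] <;> ring

theorem pr_of_perp {v : U} (h : Perp B e₁ f₁ e₂ f₂ v) : pr B e₁ f₁ e₂ f₂ v = v := by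
  obtain ⟨h1, h2, h3, h4⟩ := h
  rw [pr_apply, h1, h2, h3, h4]
  simp

theorem perp_symm (hs : ∀ u v, B u v = B v u) {v : U} (h : Perp B e₁ f₁ e₂ f₂ v) :
    B v e₁ = 0 ∧ B v f₁ = 0 ∧ B v e₂ = 0 ∧ B v f₂ = 0 := by
  obtain ⟨h1, h2, h3, h4⟩ := h
  exact ⟨by rw [hs, h1], by rw [hs, h2], by rw [hs, h3], by rw [hs, h4]⟩

/-- components of eigenvectors -/
theorem eig (H : Pair B e₁ f₁ e₂ f₂) {a b μ : ℝ} {u : U}
    (hu : xx B e₁ f₁ e₂ f₂ a b u = μ • u) :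
    (μ - a) * B f₁ u = 0 ∧ (μ + a) * B e₁ u = 0 ∧ (μ - b) * B f₂ u = 0 ∧ (μ + b) * B e₂ u = 0 ∧
      μ • pr B e₁ f₁ e₂ f₂ u = 0 := by
  obtain ⟨hs, p1, p2, p3, p4, p5, p6, p7, p8, p9, p10, p3', p6', p7', p8', p9', p10'⟩ := H
  rw [xx_apply] at hu
  have k1 := congrArg (B f₁) hu
  have k2 := congrArg (B e₁) hu
  have k3 := congrArg (B f₂) hu
  have k4 := congrArg (B e₂) hu
  simp only [map_sub, map_add, map_smul, smul_eq_mul, p1, p2, p3, p4, p5, p6, p7, p8,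
    p9, p10, p3', p6', p7', p8', p9', p10', mul_zero, mul_one, add_zero, sub_zero, zero_add,
    zero_sub] at k1 k2 k3 k4
  refine ⟨by linarith, by linarith, by linarith, by linarith, ?_⟩
  rw [pr_apply, smul_sub, ← hu]
  have e1 : a * B f₁ u = μ * B f₁ u := by linarith
  have e2 : a * B e₁ u = -(μ * B e₁ u) := by linarith
  have e3 : b * B f₂ u = μ * B f₂ u := by linarith
  have e4 : b * B e₂ u = -(μ * B e₂ u) := by linarith
  rw [e1, e2, e3, e4]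
  module

theorem xx_e1 (H : Pair B e₁ f₁ e₂ f₂) (a b : ℝ) : xx B e₁ f₁ e₂ f₂ a b e₁ = a • e₁ := by
  obtain ⟨hs, p1, p2, p3, p4, p5, p6, p7, p8, p9, p10, p3', p6', p7', p8', p9', p10'⟩ := H
  simp [xx_apply, p1, p3', p7', p8']

theorem xx_f1 (H : Pair B e₁ f₁ e₂ f₂) (a b : ℝ) : xx B e₁ f₁ e₂ f₂ a b f₁ = (-a) • f₁ := by
  obtain ⟨hs, p1, p2, p3, p4, p5, p6, p7, p8, p9, p10, p3', p6', p7', p8', p9', p10'⟩ := H
  simp [xx_apply, p2, p3, p9', p10']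

theorem xx_e2 (H : Pair B e₁ f₁ e₂ f₂) (a b : ℝ) : xx B e₁ f₁ e₂ f₂ a b e₂ = b • e₂ := by
  obtain ⟨hs, p1, p2, p3, p4, p5, p6, p7, p8, p9, p10, p3', p6', p7', p8', p9', p10'⟩ := H
  simp [xx_apply, p4, p6', p7, p9]

theorem xx_f2 (H : Pair B e₁ f₁ e₂ f₂) (a b : ℝ) : xx B e₁ f₁ e₂ f₂ a b f₂ = (-b) • f₂ := by
  obtain ⟨hs, p1, p2, p3, p4, p5, p6, p7, p8, p9, p10, p3', p6', p7', p8', p9', p10'⟩ := H
  simp [xx_apply, p5, p6, p8, p10]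

theorem xx_perp {v : U} (h : Perp B e₁ f₁ e₂ f₂ v) (a b : ℝ) :
    xx B e₁ f₁ e₂ f₂ a b v = (0 : ℝ) • v := by
  obtain ⟨h1, h2, h3, h4⟩ := h
  simp [xx_apply, h1, h2, h3, h4]

theorem diag_xx (H : Pair B e₁ f₁ e₂ f₂) (a b : ℝ) : Diag (xx B e₁ f₁ e₂ f₂ a b) := by
  rw [Diag, eq_top_iff]
  intro v _
  rw [decomp B e₁ f₁ e₂ f₂ v]
  have key : ∀ (μ : ℝ) (u : U), xx B e₁ f₁ e₂ f₂ a b u = μ • u →
      u ∈ ⨆ μ : ℝ, End.eigenspace (xx B e₁ f₁ e₂ f₂ a b) μ := by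
    intro μ u hu
    exact Submodule.mem_iSup_of_mem μ (End.mem_eigenspace_iff.2 hu)
  refine Submodule.add_mem _ (Submodule.add_mem _ (Submodule.add_mem _ (Submodule.add_mem _
    ?_ ?_) ?_) ?_) ?_
  · exact Submodule.smul_mem _ _ (key _ _ (xx_e1 H a b))
  · exact Submodule.smul_mem _ _ (key _ _ (xx_f1 H a b))
  · exact Submodule.smul_mem _ _ (key _ _ (xx_e2 H a b))
  · exact Submodule.smul_mem _ _ (key _ _ (xx_f2 H a b))
  · exact key _ _ (xx_perp (perp_pr H v) a b)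

/-- two operators agree if they agree on the four vectors and on the complement -/
theorem ext_op (H : Pair B e₁ f₁ e₂ f₂) {y y' : End ℝ U} (h1 : y e₁ = y' e₁) (h2 : y f₁ = y' f₁)
    (h3 : y e₂ = y' e₂) (h4 : y f₂ = y' f₂) (h5 : ∀ w, Perp B e₁ f₁ e₂ f₂ w → y w = y' w) :
    y = y' := by
  ext v
  rw [decomp B e₁ f₁ e₂ f₂ v]
  simp only [map_add, map_smul, h1, h2, h3, h4, h5 _ (perp_pr H v)]

/-- eigenvector of `x` whose components vanish is zero -/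
theorem eq_comp {u : U} (h : pr B e₁ f₁ e₂ f₂ u = 0) :
    u = B f₁ u • e₁ + B e₁ u • f₁ + B f₂ u • e₂ + B e₂ u • f₂ := by
  conv_lhs => rw [decomp B e₁ f₁ e₂ f₂ u]
  rw [h, add_zero]

theorem mem_perp_of_pr {u : U} (h1 : B e₁ u = 0) (h2 : B f₁ u = 0) (h3 : B e₂ u = 0)
    (h4 : B f₂ u = 0) : Perp B e₁ f₁ e₂ f₂ u := ⟨h1, h2, h3, h4⟩

end

/-- the complex line spanned by a real vector -/
def cline (e : U) : Submodule ℝ (U × U) where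
  carrier := {p | ∃ s t : ℝ, p = (s • e, t • e)}
  zero_mem' := ⟨0, 0, by rw [zero_smul]; rfl⟩
  add_mem' := by
    rintro _ _ ⟨s, t, rfl⟩ ⟨s', t', rfl⟩
    exact ⟨s + s', t + t', by simp [add_smul]⟩
  smul_mem' := by
    rintro c _ ⟨s, t, rfl⟩
    exact ⟨c * s, c * t, by simp [mul_smul]⟩

theorem jstable_cline (e : U) : JStable (cline e) := by
  rintro _ ⟨s, t, rfl⟩
  exact ⟨-t, s, by simp⟩

theorem cline_ne_bot {e : U} (he : e ≠ 0) : cline e ≠ ⊥ := by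
  intro h
  have h1 : ((e, 0) : U × U) ∈ cline e := ⟨1, 0, by simp⟩
  rw [h, Submodule.mem_bot] at h1
  exact he (congrArg Prod.fst h1)

/-- `N × N` -/
def sq (N : Submodule ℝ U) : Submodule ℝ (U × U) := N.prod N

theorem jstable_sq (N : Submodule ℝ U) : JStable (sq N) := by
  rintro p ⟨h1, h2⟩
  exact ⟨N.neg_mem h2, h1⟩

theorem cline_le_sq {N : Submodule ℝ U} {e : U} (he : e ∈ N) : cline e ≤ sq N := by
  rintro _ ⟨s, t, rfl⟩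
  exact ⟨N.smul_mem _ he, N.smul_mem _ he⟩

theorem sq_top {N : Submodule ℝ U} (h : sq N = ⊤) (u : U) : u ∈ N := by
  have h1 : ((u, 0) : U × U) ∈ sq N := by rw [h]; trivial
  exact h1.1

end Pool.Agent.V5helper40.DRB
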